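import Pool.Agent.Helper36_X1.Basic

/-!
# Squad X1: statements on roots and on groups with a root group datum

Text: `AWC_X1.md`, sections A, B, C, D.
-/

open scoped BigOperators

noncomputable section

namespace Pool.Agent.PP.X1

/-! ## A. Roots -/

/-- DOM: every vector can be moved into the closed chamber. -/
def DomStmt : Prop := ∀ (ℓ : ℕ) (G : Type) [Group G] (R : RGD ℓ G) (η : R.E),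
  ∃ w : List (Fin R.r), ∀ i, (0 : ℝ) ≤ inner ℝ (R.sw w η) (R.a i)

/-- LNG: the longest words; words in `J` and the roots in the span of `J`. -/
def LngStmt : Prop := ∀ (ℓ : ℕ) (G : Type) [Group G] (R : RGD ℓ G) (J : Finset (Fin R.r)),
  (∀ w : List (Fin R.r), (∀ i ∈ w, i ∈ J) → (∀ b, R.sw w b ∈ R.lev J ↔ b ∈ R.lev J) ∧
    ∀ b, R.sw w b ∈ R.pos \ R.lev J ↔ b ∈ R.pos \ R.lev J) ∧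
  ∃ w : List (Fin R.r), (∀ i ∈ w, i ∈ J) ∧ ∀ b ∈ R.pos ∩ R.lev J, R.sw w b ∈ R.neg

/-- ORB: every root is conjugate to a multiple of a simple root. -/
def OrbStmt : Prop := ∀ (ℓ : ℕ) (G : Type) [Group G] (R : RGD ℓ G), ∀ b ∈ R.Φ,
  ∃ (w : List (Fin R.r)) (i : Fin R.r) (c : ℝ), 1 ≤ c ∧ b = c • R.sw w (R.a i) ∧ c • R.a i ∈ R.Φ

/-- DSC: a word which moves some vector has a descent. -/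
def DscStmt : Prop := ∀ (ℓ : ℕ) (G : Type) [Group G] (R : RGD ℓ G) (w : List (Fin R.r)),
  (∃ x : R.E, R.sw w x ≠ x) → (∃ i, R.sw w (R.a i) ∈ R.neg) ∧ ∃ i, R.sw w.reverse (R.a i) ∈ R.neg

/-- RK1: the group of rank one of a simple root. -/
def Rk1Stmt : Prop := ∀ (ℓ : ℕ) (G : Type) [Group G] (R : RGD ℓ G) (i : Fin R.r),
  (∀ g ∈ R.T ⊔ (R.X (R.a i) ⊔ R.X (-R.a i)), (∃ x ∈ R.X (R.a i), ∃ t ∈ R.T, g = x * t) ∨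
    ∃ x ∈ R.X (R.a i), ∃ t ∈ R.T, ∃ y ∈ R.X (R.a i), g = x * (R.n i * t) * y) ∧
  (∀ g ∈ R.T ⊔ (R.X (R.a i) ⊔ R.X (-R.a i)), (∀ x ∈ R.X (R.a i), g * x * g⁻¹ ∈ R.X (R.a i)) →
    (∀ x ∈ R.X (-R.a i), g * x * g⁻¹ ∈ R.X (-R.a i)) → g ∈ R.T) ∧
  ∀ v ∈ R.X (-R.a i), v ≠ 1 → ∃ y ∈ R.X (R.a i), ∃ t ∈ R.T, ∃ z ∈ R.X (R.a i),
    v = y * (R.n i * t) * z ∧ (t ∈ R.Ti i)

/-- WRD: words with the same action. -/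
def WrdStmt : Prop := ∀ (ℓ : ℕ) (G : Type) [Group G] (R : RGD ℓ G),
  (∀ (K : Finset (Fin R.r)) (w : List (Fin R.r)), (∀ i ∈ w, i ∈ K) →
    (∀ i ∈ K, R.sw w (R.a i) = R.a i) → R.nw w ∈ R.TK K) ∧
  (∀ v w : List (Fin R.r), (∀ x, R.sw v x = R.sw w x) → (R.nw w)⁻¹ * R.nw v ∈ R.T) ∧
  (∀ (K : Finset (Fin R.r)), (∀ t ∈ R.T, ∀ x ∈ R.TK K, t * x * t⁻¹ ∈ R.TK K) ∧
    (∀ i ∈ K, ∀ x ∈ R.TK K, R.n i * x * (R.n i)⁻¹ ∈ R.TK K)) ∧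
  (∀ i, ∀ t ∈ R.T, R.n i * t * (R.n i)⁻¹ * t⁻¹ ∈ R.Ti i) ∧
  ∀ (w : List (Fin R.r)) (i j : Fin R.r), R.sw w (R.a i) = R.a j →
    R.nw w * R.n i * (R.nw w)⁻¹ * (R.n j)⁻¹ ∈ R.Ti j

/-! ## B. Products -/

/-- UPG: the groups of closed sets of positive roots are `ℓ`-groups. -/
def UpgStmt : Prop := ∀ (ℓ : ℕ) [Fact ℓ.Prime] (G : Type) [Group G] [Finite G] (R : RGD ℓ G)
  (A : Set R.E), R.Clo A → A ⊆ R.pos → IsPGroup ℓ (R.gp A)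

/-- CLO: examples of closed sets. -/
def CloStmt : Prop := ∀ (ℓ : ℕ) (G : Type) [Group G] (R : RGD ℓ G),
  R.Clo R.pos ∧ R.Clo R.neg ∧ (∀ J, R.Clo (R.pos \ R.lev J)) ∧ (∀ J, R.Clo (R.pos ∩ R.lev J)) ∧
  (∀ A A', R.Clo A → R.Clo A' → R.Clo (A ∩ A')) ∧
  (∀ (w : List (Fin R.r)) A, R.Clo A → R.Clo (R.sw w '' A)) ∧
  (∀ A i, R.Clo A → A ⊆ R.pos → R.Clo (A \ R.ray i) ∧ R.Clo (A ∩ R.ray i)) ∧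
  ∀ (ξ : R.E) (t : ℝ), 0 < t → R.Clo {b | b ∈ R.Φ ∧ t ≤ inner ℝ ξ b}

/-- PEL: peeling off the ray of a simple root. -/
def PelStmt : Prop := ∀ (ℓ : ℕ) (G : Type) [Group G] (R : RGD ℓ G) (i : Fin R.r),
  (∀ x ∈ R.X (R.a i), x ∈ R.gp (R.pos \ R.ray i) → x = 1) ∧
  (∀ A, R.Clo A → A ⊆ R.pos → ∀ g ∈ R.gp A, ∃ x ∈ R.gp (A ∩ R.ray i),
    ∃ y ∈ R.gp (A \ R.ray i), g = x * y) ∧
  (∀ A, R.Clo A → A ⊆ R.pos → ∀ x ∈ R.gp (A ∩ R.ray i), ∀ y ∈ R.gp (A \ R.ray i),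
    x * y * x⁻¹ ∈ R.gp (A \ R.ray i)) ∧
  (∀ x ∈ R.X (R.a i), ∀ y ∈ R.gp (R.pos \ R.ray i), x * y * x⁻¹ ∈ R.gp (R.pos \ R.ray i)) ∧
  (∀ y, R.n i * y * (R.n i)⁻¹ ∈ R.gp (R.pos \ R.ray i) ↔ y ∈ R.gp (R.pos \ R.ray i)) ∧
  (∀ A, R.gp (A ∩ R.ray i) ≤ R.X (R.a i)) ∧
  ∀ A A', R.Clo A → R.Clo A' → R.gp (A ∩ R.ray i) ⊓ R.gp (A' ∩ R.ray i) ≤
    R.gp (A ∩ A' ∩ R.ray i)

/-- PD1: intersections. -/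
def Pd1Stmt : Prop := ∀ (ℓ : ℕ) (G : Type) [Group G] (R : RGD ℓ G) (A A' : Set R.E), R.Clo A →
  R.Clo A' → A ⊆ R.pos → A' ⊆ R.pos → R.gp A ⊓ R.gp A' = R.gp (A ∩ A')

/-- PD2: factorisation into a positive and a negative part. -/
def Pd2Stmt : Prop := ∀ (ℓ : ℕ) (G : Type) [Group G] (R : RGD ℓ G) (v : List (Fin R.r))
  (A : Set R.E), R.Clo A → (∀ b ∈ A, R.sw v b ∈ R.pos) →
  ∀ g ∈ R.gp A, ∃ x ∈ R.gp (A ∩ R.pos), ∃ y ∈ R.gp (A ∩ R.neg), g = x * y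

/-- FAC: the groups `U ∩ w V w⁻¹` and `U ∩ w U w⁻¹`. -/
def FacStmt : Prop := ∀ (ℓ : ℕ) (G : Type) [Group G] (R : RGD ℓ G) (w : List (Fin R.r)),
  (∀ x, (x ∈ R.U ∧ (R.nw w)⁻¹ * x * R.nw w ∈ R.V) ↔
    x ∈ R.gp {b | b ∈ R.pos ∧ R.sw w.reverse b ∈ R.neg}) ∧
  (∀ x, (x ∈ R.U ∧ (R.nw w)⁻¹ * x * R.nw w ∈ R.U) ↔
    x ∈ R.gp {b | b ∈ R.pos ∧ R.sw w.reverse b ∈ R.pos}) ∧
  (∀ u ∈ R.U, ∃ x ∈ R.gp {b | b ∈ R.pos ∧ R.sw w.reverse b ∈ R.neg},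
    ∃ y ∈ R.gp {b | b ∈ R.pos ∧ R.sw w.reverse b ∈ R.pos}, u = x * y) ∧
  (R.gp {b | b ∈ R.pos ∧ R.sw w.reverse b ∈ R.neg} ⊓
    R.gp {b | b ∈ R.pos ∧ R.sw w.reverse b ∈ R.pos} = ⊥) ∧
  ∀ i, R.sw w.reverse (R.a i) ∈ R.pos →
    (∀ x ∈ R.gp {b | b ∈ R.pos ∧ R.sw w.reverse b ∈ R.neg},
      R.n i * x * (R.n i)⁻¹ ∈ R.gp {b | b ∈ R.pos ∧ R.sw (i :: w).reverse b ∈ R.neg}) ∧
    (R.X (R.a i) ≤ R.gp {b | b ∈ R.pos ∧ R.sw (i :: w).reverse b ∈ R.neg}) ∧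
    ∀ x ∈ R.gp {b | b ∈ R.pos ∧ R.sw (i :: w).reverse b ∈ R.neg}, ∃ y ∈ R.X (R.a i),
      ∃ z ∈ R.gp {b | b ∈ R.pos ∧ R.sw w.reverse b ∈ R.neg},
        x = y * (R.n i * z * (R.n i)⁻¹) ∧
        ∀ y' ∈ R.X (R.a i), ∀ z' ∈ R.gp {b | b ∈ R.pos ∧ R.sw w.reverse b ∈ R.neg},
          x = y' * (R.n i * z' * (R.n i)⁻¹) → y' = y ∧ z' = z

/-! ## C. The Bruhat decomposition and the parabolic subgroups -/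

/-- BRU: the cells. -/
def BruhStmt : Prop := ∀ (ℓ : ℕ) (G : Type) [Group G] (R : RGD ℓ G),
  (∀ (J : Finset (Fin R.r)) (w : List (Fin R.r)), (∀ i ∈ w, i ∈ J) → R.nw w ∈ R.PJ J) ∧
  (∀ (J : Finset (Fin R.r)) (g : G), g ∈ R.PJ J → ∃ w : List (Fin R.r), (∀ i ∈ w, i ∈ J) ∧
    ∃ b ∈ R.B, ∃ b' ∈ R.B, g = b * R.nw w * b') ∧
  R.PJ Finset.univ = ⊤ ∧ R.PJ ∅ = R.B ∧
  (∀ (i : Fin R.r) (w : List (Fin R.r)), ∀ b ∈ R.B, ∃ c ∈ R.B, ∃ d ∈ R.B,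
    R.n i * b * R.nw w = c * R.nw (i :: w) * d ∨
      (R.sw w.reverse (R.a i) ∈ R.neg ∧ R.n i * b * R.nw w = c * R.nw w * d)) ∧
  ∀ v w : List (Fin R.r), (∃ b ∈ R.B, ∃ b' ∈ R.B, R.nw v = b * R.nw w * b') →
    ∀ x, R.sw v x = R.sw w x

/-- PAR: the parabolic subgroups. -/
def ParStmt : Prop := ∀ (ℓ : ℕ) [Fact ℓ.Prime] (G : Type) [Group G] [Finite G] (R : RGD ℓ G)
  (J : Finset (Fin R.r)),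
  (∀ g, g ∈ R.PJ J ↔ ∀ x ∈ R.UJ J, g * x * g⁻¹ ∈ R.UJ J) ∧
  (∀ g, (∀ x ∈ R.UJ J, g * x * g⁻¹ ∈ R.U) → g ∈ R.PJ J) ∧
  (∀ Q : Subgroup G, Q ≤ R.PJ J → IsPGroup ℓ Q → (∀ g ∈ R.PJ J, ∀ x ∈ Q, g * x * g⁻¹ ∈ Q) →
    Q ≤ R.UJ J) ∧
  (∀ J', R.PJ J ≤ R.PJ J' ↔ J ⊆ J') ∧ (∀ J', R.UJ J ≤ R.UJ J' ↔ J' ⊆ J) ∧
  ∀ H : Subgroup G, R.B ≤ H → ∃ J', H = R.PJ J'

/-- SYL: `U` is a Sylow subgroup with normaliser `B`. -/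
def SylStmt : Prop := ∀ (ℓ : ℕ) [Fact ℓ.Prime] (G : Type) [Group G] [Finite G] (R : RGD ℓ G),
  IsPGroup ℓ R.U ∧ ¬ ℓ ∣ R.U.index ∧ (∀ g, (∀ x ∈ R.U, g * x * g⁻¹ ∈ R.U) → g ∈ R.B) ∧
  R.B ⊓ R.V = ⊥ ∧ ∀ Q : Subgroup G, IsPGroup ℓ Q → ∃ g, ∀ x ∈ Q, g * x * g⁻¹ ∈ R.U

/-- TRV: an automorphism that fixes a simple root group elementwise and normalises the torus and the
opposite root group fixes the opposite root group elementwise. -/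
def TrvStmt : Prop := ∀ (ℓ : ℕ) [Fact ℓ.Prime] (G : Type) [Group G] [Finite G] (R : RGD ℓ G)
  (i : Fin R.r) (φ : MulAut G), (∀ x ∈ R.X (R.a i), φ x = x) → (∀ t, φ t ∈ R.T ↔ t ∈ R.T) →
  (∀ x, φ x ∈ R.X (-R.a i) ↔ x ∈ R.X (-R.a i)) → ∀ x ∈ R.X (-R.a i), φ x = x

/-! ## D. The theorem of Borel and Tits -/

/-- LEV: the groups of a level are normal in the parabolic subgroup. -/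
def LevStmt : Prop := ∀ (ℓ : ℕ) (G : Type) [Group G] (R : RGD ℓ G) (ξ : R.E),
  (∀ i, (0 : ℝ) ≤ inner ℝ ξ (R.a i)) → ∀ t : ℝ, 0 < t → ∀ J : Finset (Fin R.r),
  (∀ i, i ∈ J ↔ inner ℝ ξ (R.a i) = (0 : ℝ)) →
  (∀ g ∈ R.PJ J, ∀ x ∈ R.gp {b | b ∈ R.Φ ∧ t ≤ inner ℝ ξ b},
    g * x * g⁻¹ ∈ R.gp {b | b ∈ R.Φ ∧ t ≤ inner ℝ ξ b}) ∧
  R.gp {b | b ∈ R.Φ ∧ t ≤ inner ℝ ξ b} ≤ R.UJ J

/-- INT: intersections of the groups of levels. -/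
def IntStmt : Prop := ∀ (ℓ : ℕ) (G : Type) [Group G] (R : RGD ℓ G) (ξ η : R.E),
  (∀ i, (0 : ℝ) ≤ inner ℝ ξ (R.a i)) → ∀ s t : ℝ, 0 < s → 0 < t →
  R.gp {b | b ∈ R.Φ ∧ s ≤ inner ℝ ξ b} ⊓ R.gp {b | b ∈ R.Φ ∧ t ≤ inner ℝ η b} ≤
    R.gp {b | b ∈ R.Φ ∧ s + t ≤ inner ℝ (ξ + η) b}

/-- OPT: an optimal point. -/
def OptStmt : Prop := ∀ (ℓ : ℕ) [Fact ℓ.Prime] (G : Type) [Group G] [Finite G] (R : RGD ℓ G)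
  (Q : Subgroup G), Q ≠ ⊥ → (∃ g, ∀ x ∈ Q, g⁻¹ * x * g ∈ R.U) →
  ∃ (g : G) (ξ : R.E) (t : ℝ), ‖ξ‖ = 1 ∧ (∀ i, (0 : ℝ) ≤ inner ℝ ξ (R.a i)) ∧ 0 < t ∧
    (∀ x ∈ Q, g⁻¹ * x * g ∈ R.gp {b | b ∈ R.Φ ∧ t ≤ inner ℝ ξ b}) ∧
    ∀ (h : G) (η : R.E) (u : ℝ), ‖η‖ = 1 → (∀ i, (0 : ℝ) ≤ inner ℝ η (R.a i)) →
      (∀ x ∈ Q, h⁻¹ * x * h ∈ R.gp {b | b ∈ R.Φ ∧ u ≤ inner ℝ η b}) → u ≤ t

/-- BTS: the theorem of Borel and Tits. -/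
def BtsStmt : Prop := ∀ (ℓ : ℕ) [Fact ℓ.Prime] (G : Type) [Group G] [Finite G] (R : RGD ℓ G)
  (Q : Subgroup G), IsPGroup ℓ Q → Q ≠ ⊥ → ∃ (g : G) (J : Finset (Fin R.r)), J ≠ Finset.univ ∧
    (∀ x ∈ Q, g⁻¹ * x * g ∈ R.UJ J) ∧ ∀ x, (∀ y ∈ Q, x * y * x⁻¹ ∈ Q) → g⁻¹ * x * g ∈ R.PJ J

end Pool.Agent.PP.X1
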