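import Pool.Agent.Helper36_X1.Stmts2

/-!
# Squad X1: statements on the groups `D`

Text: `AWC_X1.md`, sections F, G, H.
-/

open scoped BigOperators

noncomputable section

namespace Pool.Agent.PP.X1

open Pool.Agent.Helper51_AWC Pool.Agent.Helper79_WRA Pool.Agent.PP

/-! ## F. Group theory -/

/-- CON: the diagram is connected. -/
def ConStmt : Prop := ∀ (ℓ : ℕ) [Fact ℓ.Prime] (D : Type) [Group D] [Finite D] (M : Subgroup D)
  (R : RGD ℓ M), RgD ℓ M R → ∀ J : Finset (Fin R.r), J.Nonempty → J ≠ Finset.univ →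
  ∃ i ∈ J, ∃ k, k ∉ J ∧ R.s i (R.a k) ≠ R.a k

/-- CED: the centraliser of `U`. -/
def CedStmt : Prop := ∀ (ℓ : ℕ) [Fact ℓ.Prime] (D : Type) [Group D] [Finite D] (M : Subgroup D)
  (R : RGD ℓ M), RgD ℓ M R →
  Subgroup.centralizer ((up R.U : Subgroup D) : Set D) ≤ up R.U ⊔ Subgroup.center D

/-- CEM: the centralisers of the unipotent radicals. -/
def CemStmt : Prop := ∀ (ℓ : ℕ) [Fact ℓ.Prime] (D : Type) [Group D] [Finite D] (M : Subgroup D)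
  (R : RGD ℓ M), RgD ℓ M R → ∀ J : Finset (Fin R.r), J ≠ Finset.univ →
  Subgroup.centralizer ((up (R.UJ J) : Subgroup D) : Set D) ≤ up (R.UJ J) ⊔ Subgroup.center D

/-- BAS: first properties. -/
def BasStmt : Prop := ∀ (ℓ : ℕ) [Fact ℓ.Prime] (D : Type) [Group D] [Finite D] (M : Subgroup D)
  [M.Normal] (R : RGD ℓ M), RgD ℓ M R →
  (∀ P : Subgroup D, IsPGroup ℓ P → P ≤ M ∧ ∃ g ∈ M, ∀ x ∈ P, g * x * g⁻¹ ∈ up R.U) ∧
  ¬ ℓ ∣ Nat.card (Subgroup.center D) ∧ M ⊔ AD R = ⊤ ∧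
  (∀ x ∈ AD R, ∀ u : M, (MulAut.conjNormal x : MulAut M) u ∈ R.U ↔ u ∈ R.U) ∧
  (∀ J : Finset (Fin R.r), Subgroup.normalizer ((up (R.UJ J) : Subgroup D) : Set D) ⊓ M =
    up (R.PJ J)) ∧
  M ⊓ AD R = up R.B ∧ IsPGroup ℓ (up R.U) ∧ ¬ ℓ ∣ (up R.U).index ∧
  ∀ J : Finset (Fin R.r), J ≠ Finset.univ → up (R.UJ J) ≠ ⊥

open Classical in
/-- XCH: reduction to the chains of the subgroups of a class `𝒞`, normalised by the top. -/
def XchStmt : Prop := ∀ (ℓ : ℕ) [Fact ℓ.Prime] (D : Type) [Group D] [Finite D]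
  (𝒞 : Subgroup D → Prop), (∀ Q : Subgroup D, IsPGroup ℓ Q → Q ≠ ⊥ → ¬ 𝒞 Q →
    ∃ K : Subgroup D, IsPGroup ℓ K ∧ Q < K ∧ K ≤ Subgroup.normalizer (Q : Set D) ∧
      Subgroup.normalizer (Q : Set D) ≤ Subgroup.normalizer (K : Set D) ∧
      ∀ Q' : Subgroup D, IsPGroup ℓ Q' → 𝒞 Q' → Q' < Q → Q ≤ Subgroup.normalizer (Q' : Set D) →
        K ≤ Subgroup.normalizer (Q' : Set D)) → ∀ w : Subgroup D → ℤ,
  ∑ d ∈ chainsOn (psubIn ℓ (⊤ : Subgroup D)) ⊥, (-1) ^ (d.card + 1) * w (stab d) =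
    ∑ d ∈ (chainsOn (psubIn ℓ (⊤ : Subgroup D)) ⊥).filter (fun d => ∀ Q ∈ d,
      (Q ≠ ⊥ → 𝒞 Q) ∧ ∀ Q' ∈ d, Q' ≤ Subgroup.normalizer (Q : Set D)),
      (-1) ^ (d.card + 1) * w (stab d)

/-- RAD: the radical subgroups. -/
def RadStmt : Prop := ∀ (ℓ : ℕ) [Fact ℓ.Prime] (D : Type) [Group D] [Finite D] (M : Subgroup D)
  (R : RGD ℓ M), RgD ℓ M R →
  (∀ Q : Subgroup D, IsPGroup ℓ Q → Q ≠ ⊥ → ¬ Rad R Q → ∃ K : Subgroup D, IsPGroup ℓ K ∧ Q < K ∧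
    K ≤ Subgroup.normalizer (Q : Set D) ∧
    Subgroup.normalizer (Q : Set D) ≤ Subgroup.normalizer (K : Set D) ∧
    ∀ Q' : Subgroup D, IsPGroup ℓ Q' → Rad R Q' → Q' < Q → Q ≤ Subgroup.normalizer (Q' : Set D) →
      K ≤ Subgroup.normalizer (Q' : Set D)) ∧
  ∀ (g : D) (J : Finset (Fin R.r)), J ≠ Finset.univ → Rad R (conjS g (up (R.UJ J)))

open Classical in
/-- XFL: the alternating sum as a sum over the flags. -/
def XflStmt : Prop := ∀ (ℓ : ℕ) [Fact ℓ.Prime] (F : Type) [Field F] (D : Type) [Group D]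
  [Finite D] (M : Subgroup D) (R : RGD ℓ M), RgD ℓ M R → ∀ e : D → F, IsCl e →
  (Nat.card (AD R) : ℤ) * YY ℓ ⊤ e = (Nat.card D : ℤ) *
    ∑ f ∈ (Finset.univ : Finset (Finset (Finset (Fin R.r)))).filter (fun f => Flag f),
      (-1) ^ f.card * ((Nat.card (Df R f ⊓ AD R : Subgroup D) : ℤ) * (lnum (Df R f) e : ℤ))

/-- STF: the stabilisers of flags. -/
def StfStmt : Prop := ∀ (ℓ : ℕ) [Fact ℓ.Prime] (D : Type) [Group D] [Finite D] (M : Subgroup D)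
  [M.Normal] (R : RGD ℓ M), RgD ℓ M R → ∀ f : Finset (Finset (Fin R.r)), Flag f →
  Df R f ⊓ M = up (R.PJ (f.inf id)) ∧ (∀ x ∈ Df R f, ∃ y ∈ up (R.PJ (f.inf id)),
    ∃ z ∈ Df R f ⊓ AD R, x = y * z) ∧ up R.B ≤ Df R f ∧
  (f.Nonempty → f.inf id ≠ Finset.univ ∧ up (R.UJ (f.inf id)) ≤ Df R f ∧
    Df R f ≤ Subgroup.normalizer ((up (R.UJ (f.inf id)) : Subgroup D) : Set D)) ∧
  ∀ x ∈ AD R, (x ∈ Df R f ↔ ∀ J ∈ f,
    J.map (piA R (MulAut.conjNormal x : MulAut M)).toEmbedding = J)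

/-! ## G. Idempotents -/

/-- NLQ: on a group with a normal `ℓ`-subgroup the class function acts like its Brauer image. -/
def NlqStmt : Prop := ∀ (ℓ : ℕ) [Fact ℓ.Prime] (F : Type) [Field F], GoodF ℓ F →
  ∀ (D : Type) [Group D] [Finite D] (Q X : Subgroup D), IsPGroup ℓ Q → Q ≤ X →
  X ≤ Subgroup.normalizer (Q : Set D) → ∀ e : D → F, IsCl e → lnum X e = lnum X (br Q e)

/-- DZX: a central idempotent with vanishing Brauer map at `U` is supported on elements of defect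
zero. -/
def DzxStmt : Prop := ∀ (ℓ : ℕ) [Fact ℓ.Prime] (F : Type) [Field F], GoodF ℓ F →
  ∀ (D : Type) [Group D] [Finite D] (M : Subgroup D) (R : RGD ℓ M), RgD ℓ M R →
  ∀ e : D → F, IsIdem e → br (up R.U) e = 0 →
  ∀ x, e x ≠ 0 → ¬ ℓ ∣ Nat.card (Subgroup.centralizer ({x} : Set D))

/-- BRX: the Brauer images of an idempotent of positive defect. -/
def BrxStmt : Prop := ∀ (ℓ : ℕ) [Fact ℓ.Prime] (F : Type) [Field F], GoodF ℓ F →
  ∀ (D : Type) [Group D] [Finite D] (M : Subgroup D) (R : RGD ℓ M), RgD ℓ M R →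
  ∀ ζ : Subgroup.center D →* F, IsIdem (ez ζ) ∧ br (up R.U) (ez ζ) = ez ζ ∧
    ∀ e : D → F, IsIdem e → OverZ ζ e → e ≠ 0 → Pos ℓ e ⊤ →
      (∀ J : Finset (Fin R.r), J ≠ Finset.univ → br (up (R.UJ J)) e = ez ζ) ∧
        br (up R.U) e = ez ζ ∧ mulF (ez ζ) e = e ∧ IsIdem (fun x => ez ζ x - e x) ∧
        br (up R.U) (fun x => ez ζ x - e x) = 0

/-- PCX: the class function which separates the projective representations. -/
def PcxStmt : Prop := ∀ (ℓ : ℕ) [Fact ℓ.Prime] (F : Type) [Field F], GoodF ℓ F →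
  ∀ (D : Type) [Group D] [Finite D] (M : Subgroup D) (R : RGD ℓ M), RgD ℓ M R →
  ∃ a : D → F, IsCl a ∧ (∀ x, x ∉ M → a x = 0) ∧
    (∀ x, a x ≠ 0 → ¬ ℓ ∣ Nat.card (Subgroup.centralizer ({x} : Set D))) ∧
    ∀ (k : ℕ) (σ : M →* Matrix (Fin k) (Fin k) F), IsIrr σ →
      (SZ R.U σ → ev σ (fun t : M => a t) = 0) ∧ (¬ SZ R.U σ → ev σ (fun t : M => a t) = 1)

/-- ALX: a class function supported on `M` which acts like `e`. -/
def AlxStmt : Prop := ∀ (ℓ : ℕ) [Fact ℓ.Prime] (F : Type) [Field F], GoodF ℓ F →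
  ∀ (D : Type) [Group D] [Finite D] (M : Subgroup D) (R : RGD ℓ M), RgD ℓ M R →
  ∀ (ζ : Subgroup.center D →* F) (e : D → F), IsIdem e → OverZ ζ e → e ≠ 0 → Pos ℓ e ⊤ →
  ∃ α : D → F, IsCl α ∧ (∀ x, x ∉ M → α x = 0) ∧
    (∀ (m : ℕ) (ρ : D →* Matrix (Fin m) (Fin m) F), IsIrr ρ → ev ρ α = ev ρ e) ∧
    ∀ (k : ℕ) (σ : M →* Matrix (Fin k) (Fin k) F), IsIrr σ →
      (SZ R.U σ → ev σ (fun t : M => α t) = ev σ (fun t : M => ez ζ t)) ∧
      (¬ SZ R.U σ → ev σ (fun t : M => α t) = 0)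

/-! ## H. The count -/

open Classical in
/-- CNV: the counting lemma for `H` and the normal subgroup `M ∩ H`, as a sum over `H ∩ A`. -/
def CnvStmt : Prop := ∀ (ℓ : ℕ) [Fact ℓ.Prime] (F : Type) [Field F], GoodF ℓ F →
  ∀ (D : Type) [Group D] [Finite D] (M : Subgroup D) [M.Normal], ¬ ℓ ∣ M.index →
  ∀ (H A : Subgroup D) (P B : Subgroup M), up P = H ⊓ M → up B = M ⊓ A → up B ≤ H →
  (∀ x ∈ H, ∃ y ∈ up P, ∃ z ∈ H ⊓ A, x = y * z) → ∀ a : D → F, IsCl a → (∀ x, x ∉ M → a x = 0) →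
  ∀ τ : F → ℂ, IsLift τ →
  (Nat.card (H ⊓ A : Subgroup D) : ℂ) * Nat.card B * (lnum H a : ℂ) =
    ∑ᶠ (x : D) (y : D), if x ∈ H ⊓ A ∧ y ∈ H ⊓ A ∧ x * y * x⁻¹ * y⁻¹ ∈ up B then
      ∑ᶠ φ ∈ {φ : P → F | φ ∈ IBr F P ∧ actF (fun t : P => a t) φ = φ ∧
        Fxd P φ (MulAut.conjNormal x) ∧ Fxd P φ (MulAut.conjNormal y)},
        τ (tca P φ (MulAut.conjNormal x) (MulAut.conjNormal y) (cM M x y))
    else 0

open Classical in
/-- NUM: the number of irreducible modular characters of the stabiliser of a flag. -/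
def NumStmt : Prop := ∀ (ℓ : ℕ) [Fact ℓ.Prime] (F : Type) [Field F], GoodF ℓ F →
  ∀ (D : Type) [Group D] [Finite D] (M : Subgroup D) [M.Normal] (R : RGD ℓ M), RgD ℓ M R →
  ∀ (ζ : Subgroup.center D →* F) (e : D → F), IsIdem e → OverZ ζ e → e ≠ 0 → Pos ℓ e ⊤ →
  ∀ f : Finset (Finset (Fin R.r)), Flag f → ∀ τ : F → ℂ, IsLift τ →
  (Nat.card (Df R f ⊓ AD R : Subgroup D) : ℂ) * Nat.card R.B * (lnum (Df R f) e : ℂ) =
    ∑ᶠ (x : D) (y : D), if x ∈ Df R f ⊓ AD R ∧ y ∈ Df R f ⊓ AD R ∧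
        x * y * x⁻¹ * y⁻¹ ∈ up R.B then
      ∑ᶠ lam ∈ {lam : R.B → F | lam ∈ IBr F R.B ∧
          (∀ (z : Subgroup.center D) (g g' : R.B), ((g' : M) : D) = z * ((g : M) : D) →
            ζ z * lam g' = lam g) ∧
          Fxd R.B lam (MulAut.conjNormal x) ∧ Fxd R.B lam (MulAut.conjNormal y)},
        ((KS (f.inf id) (Ms R lam) (piA R (MulAut.conjNormal x)) (piA R (MulAut.conjNormal y))
          (f = ∅)).card : ℂ) *
          τ (tca R.B lam (MulAut.conjNormal x) (MulAut.conjNormal y) (cM M x y))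
    else 0

open Classical in
/-- TOG: the combinatorial cancellation. -/
def TogStmt : Prop := ∀ (r : ℕ) (π π' : Equiv.Perm (Fin r)) (M : Finset (Fin r)),
  ∑ f ∈ (Finset.univ : Finset (Finset (Finset (Fin r)))).filter (fun f => Flag f ∧
      ∀ J ∈ f, J.map π.toEmbedding = J ∧ J.map π'.toEmbedding = J),
    (-1 : ℤ) ^ f.card * ((KS (f.inf id) M π π' (f = ∅)).card : ℤ) = 0

/-- YYX: the alternating sum vanishes for `D`. -/
def YyxStmt : Prop := ∀ (ℓ : ℕ) [Fact ℓ.Prime] (F : Type) [Field F], GoodF ℓ F →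
  ∀ (D : Type) [Group D] [Finite D] (M : Subgroup D) (R : RGD ℓ M), RgD ℓ M R →
  ∀ e : D → F, IsIdem e → (∀ z ∈ Subgroup.center D, z ≠ 1 → ∃ c : F, ∀ x, e (z * x) = c * e x) →
  Pos ℓ e ⊤ → YY ℓ ⊤ e = 0

/-! ## I. Nearly simple groups -/

/-- LFT: lifting the root group datum of `S` to `M`. -/
def LftStmt : Prop := ∀ (ℓ : ℕ) [Fact ℓ.Prime] (S M : Type) [Group S] [Finite S] [Group M]
  [Finite M], LieType ℓ S → ∀ (π : M →* S), Function.Surjective π →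
  π.ker ≤ Subgroup.center M → ¬ ℓ ∣ Nat.card π.ker →
  ∃ R : RGD ℓ M, (∀ z, π z = 1 → z ∈ R.T) ∧ (ℓ ∣ Nat.card S → R.U ≠ ⊥)

/-- NSX: the alternating sum vanishes for the nearly simple groups over groups of Lie type. -/
def NsxStmt : Prop := ∀ (ℓ : ℕ) (F : Type) [Field F], GoodF ℓ F →
  ∀ (S : Type) [Group S] [Finite S], NonabSimple S → ℓ ∣ Nat.card S → LieType ℓ S →
  ∀ (D : Type) [Group D] [Finite D], opCore ℓ D = ⊥ → NearlySimpleL ℓ D S → ∀ e : D → F,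
  IsIdem e → (∀ z ∈ Subgroup.center D, z ≠ 1 → ∃ c : F, ∀ x, e (z * x) = c * e x) →
  Pos ℓ e ⊤ → YY ℓ ⊤ e = 0

/-- QUO: the root group datum of a quotient. -/
def QuoStmt : Prop := ∀ (ℓ : ℕ) (G G' : Type) [Group G] [Group G'] (R : RGD ℓ G) (π : G →* G'),
  Function.Surjective π → π.ker ≤ R.T → LieType ℓ G'

/-- SLN: the special linear groups in characteristic `ℓ`. -/
def SlnStmt : Prop := ∀ (ℓ : ℕ) [Fact ℓ.Prime] (K : Type) [Field K] [Finite K] [CharP K ℓ]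
  (n : ℕ), ∃ R : RGD ℓ (Matrix.SpecialLinearGroup (Fin (n + 1)) K),
    Subgroup.center (Matrix.SpecialLinearGroup (Fin (n + 1)) K) ≤ R.T

end Pool.Agent.PP.X1
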