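import Pool.Agent.Helper11_X1.Lng
import Pool.Agent.Helper17_X1.Ln2
import Pool.Agent.Helper17_X1.Trv
import Pool.Agent.Helper18_X1.Syl
import Pool.Agent.Helper18_X1.Upg
import Pool.Agent.Helper20_X1.Par
import Pool.Agent.Helper20_X1.Pd2
import Pool.Agent.Helper29_X1.Dsc
import Pool.Agent.Helper32_X1.Clo
import Pool.Agent.Helper32_X1.Pel
import Pool.Agent.Helper37_X1.Bts
import Pool.Agent.Helper39_X1.Dom
import Pool.Agent.Helper39_X1.Orb
import Pool.Agent.Helper41_X1.Wrd
import Pool.Agent.Helper45_X1.Opv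
import Pool.Agent.Helper55_X1.Bru
import Pool.Agent.Helper5_X1.Fac
import Pool.Agent.Helper76_X1.Pd1
import Pool.Agent.Helper81_X1.Rk1
import Pool.Agent.Helper90_X1.Opt
import Pool.Agent.Helper96_X1.Int
import Pool.Agent.Helper96_X1.Lev
import Pool.Agent.Helper6_X1.Prx
import Pool.Agent.Helper77_X1.Lft
import Pool.Agent.Helper77_X1.Quo

/-!
# Squad X1: assembly, sections A-D
-/

open scoped BigOperators

noncomputable section

namespace Pool.Agent.PP.X1

theorem wrd_ : WrdStmt := H41.wrd H81.rk1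
theorem pd1_ : Pd1Stmt := H76.pd1 H11.lng H32.clo H32.pel
theorem pd2_ : Pd2Stmt := H20.pd2 H32.clo H32.pel
theorem fac_ : FacStmt := H5.fac pd2_ H32.pel H32.clo
theorem bru_ : BruhStmt := H55.bru H11.lng H39.orb H29.dsc H32.pel fac_
theorem syl_ : SylStmt := H18.syl H11.lng H39.orb H29.dsc wrd_ H18.upg H32.clo bru_
theorem par_ : ParStmt := H20.par H11.lng H29.dsc wrd_ fac_ bru_ syl_
theorem trv_ : TrvStmt := H17.trv H81.rk1
theorem int_ : IntStmt := H96.int H39.dom H32.clo pd1_ pd2_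
theorem bts_ : BtsStmt := H37.bts H39.dom bru_ syl_ par_ H96.lev int_ H90.opt
theorem ln2_ : Ln2Stmt := H17.ln2 H11.lng H39.orb
theorem opv_ : OpvStmt := H45.opv H11.lng H39.orb H29.dsc wrd_ bru_
theorem prx_ : PrmxStmt := H6.prx syl_ par_ bru_
theorem lft_ : LftStmt := H77.lft H39.dom H18.upg H32.clo

end Pool.Agent.PP.X1
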