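import Pool.Agent.Helper36_X1.AsmA
import Pool.Agent.Helper69_X1.Aca
import Pool.Agent.Helper68_X1.Acb
import Pool.Agent.Helper30_X1.Alx
import Pool.Agent.Helper53_X1.Bas
import Pool.Agent.Helper26_X1.Brx
import Pool.Agent.Helper20_X1.Ced
import Pool.Agent.Helper35_X1.Cem
import Pool.Agent.Helper65_X1.Cnv
import Pool.Agent.Helper68_X1.Conn
import Pool.Agent.Helper5_X1.Csf
import Pool.Agent.Helper69_X1.Cyx
import Pool.Agent.Helper90_X1.Dzx
import Pool.Agent.Helper31_X1.Frx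
import Pool.Agent.Helper9_X1.Ext
import Pool.Agent.Helper41_X1.Ind
import Pool.Agent.Helper24_X1.Lb1
import Pool.Agent.Helper48_X1.Lb4
import Pool.Agent.Helper86_X1.Lb5
import Pool.Agent.Helper43_X1.Lb6
import Pool.Agent.Helper43_X1.Lb7
import Pool.Agent.Helper21_X1.Min
import Pool.Agent.Helper26_X1.Nlq
import Pool.Agent.Helper17_X1.Nsx
import Pool.Agent.Helper68_X1.Pcx
import Pool.Agent.Helper89_X1.Rad
import Pool.Agent.Helper65_X1.Sub
import Pool.Agent.Helper63_X1.Tau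
import Pool.Agent.Helper94_X1.Tog
import Pool.Agent.Helper76_X1.Tri
import Pool.Agent.Helper21_X1.Vui
import Pool.Agent.Helper64_X1.Xch
import Pool.Agent.Helper90_X1.Yyx
import Pool.Agent.Helper81_X1.Tce
import Pool.Agent.Helper81_X1.Rk1
import Pool.Agent.Helper83_X1.Stf
import Pool.Agent.Helper89_X1.Num
import Pool.Agent.Helper14_X1.Tcu
import Pool.Agent.Helper14_X1.Lb3
import Pool.Agent.Helper86_X1.Xfl
import Pool.Agent.Helper33_X1.Sln
import Pool.Agent.Helper29_X1.Slr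
import Pool.Agent.Helper29_X1.Slx
import Pool.Agent.Helper51_X1.Slt
import Pool.Agent.Helper51_X1.Slo
import Pool.Agent.Helper18_X1.Rol
import Pool.Agent.Helper66_BN.AsmBN

/-!
# Squad X1: assembly, sections E-I
-/

open scoped BigOperators

noncomputable section

namespace Pool.Agent.PP.X1

open Pool.Agent.PP

theorem bas_ : BasStmt := H53.bas syl_ par_ bru_ H11.lng
theorem con_ : ConStmt := H68.con H39.orb
theorem ced_ : CedStmt := H20.ced par_ syl_ bru_ opv_ trv_ bas_ H11.lng H39.orb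
theorem cem_ : CemStmt := H35.cem con_ ced_ bas_ par_ bru_ H32.pel H11.lng wrd_
theorem rad_ : RadStmt := H89.rad bas_ bts_ par_ syl_
theorem stf_ : StfStmt := H83.stf bas_ par_ prx_
theorem aca_ : AcaStmt := H69.aca fac_ bru_
theorem tri_ : TriStmt := H76.tri aca_ H68.acb
theorem min__ : MinStmt := H21.min_ aca_ H68.acb
theorem cyx_ : CycxStmt := H69.cyx fac_ bru_ H11.lng H29.dsc wrd_
theorem vui_ : VuiStmt := H21.vui cyx_ min__ tri_ aca_
theorem lb1_ : Lb1Stmt := H24.lb1 vui_ aca_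
theorem lb6_ : Lb6Stmt := H43.lb6 vui_ lb1_ cyx_ aca_ H11.lng
theorem lb7_ : Lb7Stmt := H43.lb7 prx_ bru_ H32.pel
theorem frx_ : FrxStmt := H31.frx lb6_ bru_
theorem sub_ : SubStmt := H65.sub vui_
theorem dzx_ : DzxStmt := H90.dzx rad_ cem_ bas_ H20.nls H20.brm H20.ibn
theorem brx_ : BrxStmt := H26.brx dzx_ cem_ ced_ bas_ H20.nls H20.brm H20.ibn
theorem pcx_ : PcxStmt := H68.pcx frx_ bas_ H20.ibj H20.ibf H20.ibc
theorem alx_ : AlxStmt := H30.alx brx_ dzx_ pcx_ bas_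
theorem nlq_ : NlqStmt := H26.nlq H20.nls
theorem cnv_ : CnvStmt := H65.cnv Pool.Agent.PP.H96.cl_
theorem tcu_ : TcuStmt := H14.tcu H20.ibc
theorem tce_ : TceStmt := H81.tce tcu_ prx_

theorem lb3_ : Lb3Stmt := H14.lb3 H20.ibc H20.ibj H11.lng bru_ cyx_ vui_ lb1_

theorem xfl_ : XflStmt := H86.xfl H64.xch rad_ bas_ par_ syl_ bru_
theorem quo_ : QuoStmt := H77.quo
theorem sln_ : SlnStmt := Sl.H33.sln H29.slr H29.slx (Sl.H51.slt H29.slx)
  (Sl.H51.slo H29.slr H29.slx (Sl.H51.slt H29.slx))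

theorem ext_ : ExtStmt := H9.ext H11.lng H39.orb H81.rk1 wrd_ H32.pel bru_
theorem ind_ : IndStmt := H41.ind ext_
theorem tau_ : TauStmt := H63.tau tri_ aca_ H68.acb ind_
theorem lb5_ : Lb5Stmt := H86.lb5 sub_ tau_ ind_ ln2_ opv_ aca_ H68.acb fac_ wrd_ H32.pel
theorem csf_ : CsfStmt := H5.csf lb1_ lb3_ H48.lb4 lb5_ lb6_ lb7_ tce_ prx_
theorem num_ : NumStmt := H89.num cnv_ csf_ alx_ brx_ nlq_ stf_ bas_
theorem yyx_ : YyxStmt := H90.yyx xfl_ num_ H94.tog stf_ H20.ibf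

/-- **The count for nearly simple groups over a simple group with a reductive group datum.** -/
theorem nsx_ : NsxStmt := H17.nsx lft_ yyx_

end Pool.Agent.PP.X1
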