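import Pool.Agent.Helper36_X1.Defs

/-!
# Root group data: first properties
-/

open scoped BigOperators

set_option linter.unusedSectionVars false

noncomputable section

namespace Pool.Agent.PP.X1

section refl

variable {m : ℕ} (a v w : EuclideanSpace ℝ (Fin m))

theorem rf_add : rf a (v + w) = rf a v + rf a w := by
  unfold rf
  rw [inner_add_right, mul_add, add_div, add_smul]
  abel

theorem rf_smul (c : ℝ) : rf a (c • v) = c • rf a v := by
  unfold rf
  rw [real_inner_smul_right, smul_sub, smul_smul]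
  congr 2
  ring

theorem rf_neg : rf a (-v) = -rf a v := by
  have := rf_smul a v (-1)
  rwa [neg_one_smul, neg_one_smul] at this

theorem inner_self_ne {a : EuclideanSpace ℝ (Fin m)} (h : a ≠ 0) : inner ℝ a a ≠ (0 : ℝ) :=
  inner_self_ne_zero.mpr h

theorem rf_self (h : a ≠ 0) : rf a a = -a := by
  unfold rf
  rw [mul_div_assoc, div_self (inner_self_ne h), mul_one, two_smul]
  abel

theorem rf_rf (h : a ≠ 0) : rf a (rf a v) = v := by
  have h1 : rf a (rf a v) = rf a v - (2 * inner ℝ a v / inner ℝ a a) • rf a a := by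
    conv_lhs => rw [show rf a v = v + -((2 * inner ℝ a v / inner ℝ a a) • a) from sub_eq_add_neg _ _]
    rw [rf_add, rf_neg, rf_smul]
    abel
  rw [h1, rf_self a h]
  unfold rf
  rw [smul_neg]
  abel

theorem rf_inner (h : a ≠ 0) : inner ℝ (rf a v) (rf a w) = (inner ℝ v w : ℝ) := by
  have hn := inner_self_ne h
  unfold rf
  rw [inner_sub_left, inner_sub_right, inner_sub_right, real_inner_smul_left, real_inner_smul_right,
    real_inner_smul_left, real_inner_smul_right, real_inner_comm a v]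
  field_simp
  ring

/-- `rf a v = v` if `v` is orthogonal to `a` -/
theorem rf_of_orth (h : inner ℝ a v = (0 : ℝ)) : rf a v = v := by
  unfold rf
  rw [h]
  simp

end refl

namespace RGD

variable {ℓ : ℕ} {G : Type} [Group G] (R : RGD ℓ G)

theorem a_ne (i : Fin R.r) : R.a i ≠ 0 := R.ne0 _ (R.mem i)

theorem s_add (i : Fin R.r) (v w : R.E) : R.s i (v + w) = R.s i v + R.s i w := rf_add _ _ _

theorem s_smul (i : Fin R.r) (c : ℝ) (v : R.E) : R.s i (c • v) = c • R.s i v := rf_smul _ _ _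

theorem s_neg (i : Fin R.r) (v : R.E) : R.s i (-v) = -R.s i v := rf_neg _ _

theorem s_s (i : Fin R.r) (v : R.E) : R.s i (R.s i v) = v := rf_rf _ _ (R.a_ne i)

theorem s_self (i : Fin R.r) : R.s i (R.a i) = -R.a i := rf_self _ (R.a_ne i)

theorem s_inner (i : Fin R.r) (v w : R.E) : inner ℝ (R.s i v) (R.s i w) = (inner ℝ v w : ℝ) :=
  rf_inner _ _ _ (R.a_ne i)

theorem s_mem {i : Fin R.r} {b : R.E} (hb : b ∈ R.Φ) : R.s i b ∈ R.Φ := R.refl i b hb

theorem s_mem_iff {i : Fin R.r} {b : R.E} : R.s i b ∈ R.Φ ↔ b ∈ R.Φ := by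
  refine ⟨fun h => ?_, R.s_mem⟩
  have := R.s_mem (i := i) h
  rwa [s_s] at this

theorem s_eq (i : Fin R.r) (v : R.E) :
    R.s i v = v - (2 * inner ℝ (R.a i) v / inner ℝ (R.a i) (R.a i)) • R.a i := rfl

/-! ### Words -/

@[simp] theorem sw_nil (v : R.E) : R.sw [] v = v := rfl

@[simp] theorem sw_cons (i : Fin R.r) (w : List (Fin R.r)) (v : R.E) :
    R.sw (i :: w) v = R.s i (R.sw w v) := rfl

theorem sw_append (u w : List (Fin R.r)) (v : R.E) : R.sw (u ++ w) v = R.sw u (R.sw w v) := by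
  induction u with
  | nil => rfl
  | cons i u ih => rw [List.cons_append, sw_cons, sw_cons, ih]

theorem sw_add (w : List (Fin R.r)) (u v : R.E) : R.sw w (u + v) = R.sw w u + R.sw w v := by
  induction w with
  | nil => rfl
  | cons i w ih => rw [sw_cons, sw_cons, sw_cons, ih, s_add]

theorem sw_smul (w : List (Fin R.r)) (c : ℝ) (v : R.E) : R.sw w (c • v) = c • R.sw w v := by
  induction w with
  | nil => rfl
  | cons i w ih => rw [sw_cons, sw_cons, ih, s_smul]

theorem sw_neg (w : List (Fin R.r)) (v : R.E) : R.sw w (-v) = -R.sw w v := by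
  have := R.sw_smul w (-1) v
  rwa [neg_one_smul, neg_one_smul] at this

theorem sw_inner (w : List (Fin R.r)) (u v : R.E) :
    inner ℝ (R.sw w u) (R.sw w v) = (inner ℝ u v : ℝ) := by
  induction w with
  | nil => rfl
  | cons i w ih => rw [sw_cons, sw_cons, s_inner, ih]

theorem sw_mem {w : List (Fin R.r)} {b : R.E} (hb : b ∈ R.Φ) : R.sw w b ∈ R.Φ := by
  induction w with
  | nil => exact hb
  | cons i w ih => exact R.s_mem ih

theorem sw_reverse_sw (w : List (Fin R.r)) (v : R.E) : R.sw w.reverse (R.sw w v) = v := by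
  induction w generalizing v with
  | nil => rfl
  | cons i w ih =>
    rw [List.reverse_cons, sw_append, sw_cons, sw_cons, sw_nil, s_s, ih]

theorem sw_sw_reverse (w : List (Fin R.r)) (v : R.E) : R.sw w (R.sw w.reverse v) = v := by
  have := R.sw_reverse_sw w.reverse v
  rwa [List.reverse_reverse] at this

theorem sw_mem_iff {w : List (Fin R.r)} {b : R.E} : R.sw w b ∈ R.Φ ↔ b ∈ R.Φ := by
  refine ⟨fun h => ?_, R.sw_mem⟩
  have := R.sw_mem (w := w.reverse) h
  rwa [sw_reverse_sw] at this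

theorem sw_injective (w : List (Fin R.r)) : Function.Injective (R.sw w) :=
  Function.LeftInverse.injective (R.sw_reverse_sw w)

@[simp] theorem nw_nil : R.nw [] = 1 := rfl

@[simp] theorem nw_cons (i : Fin R.r) (w : List (Fin R.r)) : R.nw (i :: w) = R.n i * R.nw w := by
  unfold nw
  rw [List.map_cons, List.prod_cons]

theorem nw_append (u w : List (Fin R.r)) : R.nw (u ++ w) = R.nw u * R.nw w := by
  unfold nw
  rw [List.map_append, List.prod_append]

/-! ### Signs -/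

theorem not_nn_neg {b : R.E} (hb : b ∈ R.Φ) (h1 : Nn R.a b) (h2 : Nn R.a (-b)) : False := by
  obtain ⟨k, hk, h3⟩ := h1
  obtain ⟨l, hl, h4⟩ := h2
  have h5 : ∑ i, (k i + l i) • R.a i = 0 := by
    simp only [add_smul, Finset.sum_add_distrib]
    rw [← h3, ← h4]
    abel
  have h6 := Fintype.linearIndependent_iff.mp R.base _ h5
  apply R.ne0 b hb
  rw [h3]
  apply Finset.sum_eq_zero
  intro i _
  have := h6 i
  have h7 : k i = 0 := by linarith [hk i, hl i]
  rw [h7, zero_smul]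

theorem pos_or_neg {b : R.E} (hb : b ∈ R.Φ) : b ∈ R.pos ∨ b ∈ R.neg := by
  rcases R.sgn b hb with h | h
  · exact Or.inl ⟨hb, h⟩
  · exact Or.inr ⟨hb, h⟩

theorem not_pos_neg {b : R.E} (h1 : b ∈ R.pos) (h2 : b ∈ R.neg) : False :=
  R.not_nn_neg h1.1 h1.2 h2.2

theorem neg_a_mem (i : Fin R.r) : -R.a i ∈ R.Φ := by
  rw [← R.s_self]
  exact R.s_mem (R.mem i)

theorem nn_a (i : Fin R.r) : Nn R.a (R.a i) := by
  classical
  refine ⟨fun j => if j = i then 1 else 0, fun j => ?_, ?_⟩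
  · dsimp only
    split_ifs <;> norm_num
  · simp

theorem a_pos (i : Fin R.r) : R.a i ∈ R.pos := ⟨R.mem i, R.nn_a i⟩

theorem nn_add {u v : R.E} (hu : Nn R.a u) (hv : Nn R.a v) : Nn R.a (u + v) := by
  obtain ⟨k, hk, rfl⟩ := hu
  obtain ⟨l, hl, rfl⟩ := hv
  exact ⟨fun i => k i + l i, fun i => add_nonneg (hk i) (hl i), by
    simp only [add_smul, Finset.sum_add_distrib]⟩

theorem nn_smul {v : R.E} {c : ℝ} (hc : 0 ≤ c) (hv : Nn R.a v) : Nn R.a (c • v) := by
  obtain ⟨k, hk, rfl⟩ := hv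
  exact ⟨fun i => c * k i, fun i => mul_nonneg hc (hk i), by
    rw [Finset.smul_sum]
    simp only [smul_smul]⟩

/-- a simple reflection permutes the positive roots outside the ray of the simple root -/
theorem s_pos {i : Fin R.r} {b : R.E} (hb : b ∈ R.pos) (hr : b ∉ R.ray i) : R.s i b ∈ R.pos := by
  classical
  refine ⟨R.s_mem hb.1, ?_⟩
  obtain ⟨k, hk, hbk⟩ := hb.2
  rcases R.sgn _ (R.s_mem (i := i) hb.1) with h | h
  · exact h
  exfalso
  obtain ⟨l, hl, hbl⟩ := h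
  have h1 : R.s i b = b - (2 * inner ℝ (R.a i) b / inner ℝ (R.a i) (R.a i)) • R.a i := rfl
  set c : ℝ := 2 * inner ℝ (R.a i) b / inner ℝ (R.a i) (R.a i) with hc
  have h2 : ∑ j, (k j + l j - if j = i then c else 0) • R.a j = 0 := by
    simp only [sub_smul, add_smul, Finset.sum_sub_distrib, Finset.sum_add_distrib, ite_smul,
      zero_smul, Finset.sum_ite_eq', Finset.mem_univ, if_true]
    rw [← hbk, ← hbl, h1]
    abel
  have h3 := Fintype.linearIndependent_iff.mp R.base _ h2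
  apply hr
  refine ⟨hb.1, k i, ?_, ?_⟩
  · rcases (hk i).lt_or_eq with h4 | h4
    · exact h4
    · exfalso
      apply R.ne0 b hb.1
      rw [hbk]
      apply Finset.sum_eq_zero
      intro j _
      by_cases hj : j = i
      · rw [hj, ← h4, zero_smul]
      · have := h3 j
        rw [if_neg hj] at this
        have h5 : k j = 0 := by linarith [hk j, hl j]
        rw [h5, zero_smul]
  · rw [hbk]
    rw [Finset.sum_eq_single i]
    · intro j _ hj
      have := h3 j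
      rw [if_neg hj] at this
      have h5 : k j = 0 := by linarith [hk j, hl j]
      rw [h5, zero_smul]
    · intro h
      exact absurd (Finset.mem_univ i) h

theorem s_ray {i : Fin R.r} {b : R.E} (hb : b ∈ R.ray i) : R.s i b = -b := by
  obtain ⟨-, c, -, rfl⟩ := hb
  rw [s_smul, s_self, smul_neg]

theorem ray_pos {i : Fin R.r} {b : R.E} (hb : b ∈ R.ray i) : b ∈ R.pos := by
  obtain ⟨h1, c, hc, rfl⟩ := hb
  exact ⟨h1, R.nn_smul hc.le (R.nn_a i)⟩

theorem neg_of_ray {i : Fin R.r} {b : R.E} (hb : b ∈ R.ray i) : -b ∈ R.neg := by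
  refine ⟨?_, ?_⟩
  · rw [← R.s_ray hb]
    exact R.s_mem hb.1
  · rw [neg_neg]
    exact (R.ray_pos hb).2

/-- a simple reflection does not map a positive root outside the ray into the ray -/
theorem s_not_ray {i : Fin R.r} {b : R.E} (hb : b ∈ R.pos) : R.s i b ∉ R.ray i := by
  intro h
  have h1 := R.s_ray h
  rw [s_s] at h1
  have h2 := R.neg_of_ray h
  rw [← h1] at h2
  exact R.not_pos_neg hb h2

/-- all roots of the ray of a simple root have root groups contained in the one of the simple root -/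
theorem X_ray {i : Fin R.r} {b : R.E} (hb : b ∈ R.ray i) : R.X b ≤ R.X (R.a i) := by
  obtain ⟨h1, c, hc, rfl⟩ := hb
  exact R.nest _ (R.mem i) c (R.short i c hc h1) h1

/-! ### Conjugation -/

theorem nX' {i : Fin R.r} {b : R.E} (hb : b ∈ R.Φ) {x : G} :
    R.n i * x * (R.n i)⁻¹ ∈ R.X (R.s i b) ↔ x ∈ R.X b := by
  refine ⟨fun h => ?_, R.nX i b hb x⟩
  have h1 := R.nX i _ (R.s_mem hb) _ h
  have h2 : rf (R.a i) (R.s i b) = b := R.s_s i b
  rw [h2] at h1
  have h3 := R.tX _ (R.T.inv_mem (R.nn i)) b hb _ h1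
  have h4 : (R.n i * R.n i)⁻¹ * (R.n i * (R.n i * x * (R.n i)⁻¹) * (R.n i)⁻¹) *
      ((R.n i * R.n i)⁻¹)⁻¹ = x := by group
  rwa [h4] at h3

theorem nT' {i : Fin R.r} {t : G} : R.n i * t * (R.n i)⁻¹ ∈ R.T ↔ t ∈ R.T := by
  refine ⟨fun h => ?_, R.nT i t⟩
  have h1 := R.nT i _ h
  have h2 := R.T.mul_mem (R.T.mul_mem (R.T.inv_mem (R.nn i)) h1) (R.nn i)
  have h4 : (R.n i * R.n i)⁻¹ * (R.n i * (R.n i * t * (R.n i)⁻¹) * (R.n i)⁻¹) *
      (R.n i * R.n i) = t := by group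
  rwa [h4] at h2

theorem X_nw {w : List (Fin R.r)} {b : R.E} (hb : b ∈ R.Φ) {x : G} :
    R.nw w * x * (R.nw w)⁻¹ ∈ R.X (R.sw w b) ↔ x ∈ R.X b := by
  induction w with
  | nil => simp
  | cons i w ih =>
    rw [nw_cons, sw_cons, ← ih, ← R.nX' (i := i) (R.sw_mem (w := w) hb)]
    have : R.n i * R.nw w * x * (R.n i * R.nw w)⁻¹ =
        R.n i * (R.nw w * x * (R.nw w)⁻¹) * (R.n i)⁻¹ := by group
    rw [this]

theorem T_nw {w : List (Fin R.r)} {t : G} : R.nw w * t * (R.nw w)⁻¹ ∈ R.T ↔ t ∈ R.T := by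
  induction w with
  | nil => simp
  | cons i w ih =>
    have : R.n i * R.nw w * t * (R.n i * R.nw w)⁻¹ =
        R.n i * (R.nw w * t * (R.nw w)⁻¹) * (R.n i)⁻¹ := by group
    rw [nw_cons, this, R.nT', ih]

theorem gp_mono {A A' : Set R.E} (h : A ⊆ A') : R.gp A ≤ R.gp A' :=
  biSup_mono fun _ hb => h hb

theorem X_le_gp {A : Set R.E} {b : R.E} (hb : b ∈ A) : R.X b ≤ R.gp A :=
  le_biSup (f := fun b => R.X b) hb

theorem gp_le {A : Set R.E} {H : Subgroup G} (h : ∀ b ∈ A, R.X b ≤ H) : R.gp A ≤ H :=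
  iSup₂_le h

theorem gp_union (A A' : Set R.E) : R.gp (A ∪ A') = R.gp A ⊔ R.gp A' := by
  apply le_antisymm
  · apply R.gp_le
    rintro b (hb | hb)
    · exact (R.X_le_gp hb).trans le_sup_left
    · exact (R.X_le_gp hb).trans le_sup_right
  · exact sup_le (R.gp_mono Set.subset_union_left) (R.gp_mono Set.subset_union_right)

@[simp] theorem gp_empty : R.gp ∅ = ⊥ := by
  unfold gp
  simp

/-- the subgroups generated by root groups are permuted by the words -/
theorem gp_nw {w : List (Fin R.r)} {A : Set R.E} (hA : A ⊆ R.Φ) {x : G} :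
    R.nw w * x * (R.nw w)⁻¹ ∈ R.gp (R.sw w '' A) ↔ x ∈ R.gp A := by
  have h1 : ∀ (w : List (Fin R.r)) (A : Set R.E), A ⊆ R.Φ → ∀ x ∈ R.gp A,
      R.nw w * x * (R.nw w)⁻¹ ∈ R.gp (R.sw w '' A) := by
    intro w A hA x hx
    have h2 : R.gp A ≤ (R.gp (R.sw w '' A)).comap (MulAut.conj (R.nw w)).toMonoidHom := by
      apply R.gp_le
      intro b hb y hy
      rw [Subgroup.mem_comap]
      show R.nw w * y * (R.nw w)⁻¹ ∈ _
      exact R.X_le_gp (Set.mem_image_of_mem _ hb) ((R.X_nw (hA hb)).mpr hy)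
    exact h2 hx
  refine ⟨fun h => ?_, h1 w A hA x⟩
  have h3 : R.gp (R.sw w '' A) ≤ (R.gp A).comap (MulAut.conj (R.nw w)⁻¹).toMonoidHom := by
    apply R.gp_le
    rintro _ ⟨b, hb, rfl⟩ y hy
    rw [Subgroup.mem_comap]
    show (R.nw w)⁻¹ * y * ((R.nw w)⁻¹)⁻¹ ∈ _
    apply R.X_le_gp hb
    rw [← R.X_nw (w := w) (hA hb)]
    have : R.nw w * ((R.nw w)⁻¹ * y * ((R.nw w)⁻¹)⁻¹) * (R.nw w)⁻¹ = y := by group
    rwa [this]
  have h4 := h3 h
  rw [Subgroup.mem_comap] at h4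
  have h5 : (R.nw w)⁻¹ * (R.nw w * x * (R.nw w)⁻¹) * ((R.nw w)⁻¹)⁻¹ ∈ R.gp A := h4
  have : (R.nw w)⁻¹ * (R.nw w * x * (R.nw w)⁻¹) * ((R.nw w)⁻¹)⁻¹ = x := by group
  rwa [this] at h5

theorem T_gp {A : Set R.E} (hA : A ⊆ R.Φ) {t x : G} (ht : t ∈ R.T) (hx : x ∈ R.gp A) :
    t * x * t⁻¹ ∈ R.gp A := by
  have h2 : R.gp A ≤ (R.gp A).comap (MulAut.conj t).toMonoidHom := by
    apply R.gp_le
    intro b hb y hy
    rw [Subgroup.mem_comap]
    exact R.X_le_gp hb (R.tX t ht b (hA hb) y hy)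
  exact h2 hx

theorem pos_sub : R.pos ⊆ R.Φ := fun _ h => h.1

theorem neg_sub : R.neg ⊆ R.Φ := fun _ h => h.1

theorem lev_sub (J : Finset (Fin R.r)) : R.lev J ⊆ R.Φ := fun _ h => h.1

/-- the commutator relation in terms of sets of roots -/
theorem comm_gp {b c : R.E} (hb : b ∈ R.Φ) (hc : c ∈ R.Φ) (hbc : ∀ s : ℝ, 0 < s → c ≠ -(s • b))
    {A : Set R.E} (hA : ∀ p q : ℝ, 1 ≤ p → 1 ≤ q → p • b + q • c ∈ R.Φ → p • b + q • c ∈ A)
    {x y : G} (hx : x ∈ R.X b) (hy : y ∈ R.X c) : x * y * x⁻¹ * y⁻¹ ∈ R.gp A := by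
  have h1 := R.comm b hb c hc hbc x hx y hy
  have h2 : (⨆ d ∈ {d ∈ R.Φ | ∃ p q : ℝ, 1 ≤ p ∧ 1 ≤ q ∧ d = p • b + q • c}, R.X d) ≤ R.gp A := by
    apply iSup₂_le
    rintro d ⟨hd, p, q, hp, hq, rfl⟩
    exact R.X_le_gp (hA p q hp hq hd)
  exact h2 h1

theorem UV : R.U ⊓ (R.T ⊔ R.V) = ⊥ := R.opp

theorem U_inf_V : R.U ⊓ R.V = ⊥ := by
  rw [eq_bot_iff, ← R.UV]
  exact inf_le_inf_left _ le_sup_right

theorem T_le_B : R.T ≤ R.B := le_sup_left

theorem U_le_B : R.U ≤ R.B := le_sup_right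

theorem X_le_U {b : R.E} (hb : b ∈ R.pos) : R.X b ≤ R.U := R.X_le_gp hb

theorem X_le_V {b : R.E} (hb : b ∈ R.neg) : R.X b ≤ R.V := R.X_le_gp hb

theorem mem_B {g : G} : g ∈ R.B ↔ ∃ u ∈ R.U, ∃ t ∈ R.T, g = u * t := by
  constructor
  · intro h
    have hn : R.T ≤ Subgroup.normalizer (R.U : Set G) := by
      intro t ht
      rw [Subgroup.mem_normalizer_iff]
      intro x
      constructor
      · exact fun hx => R.T_gp R.pos_sub ht hx
      · intro hx
        have := R.T_gp R.pos_sub (R.T.inv_mem ht) hx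
        have h1 : t⁻¹ * (t * x * t⁻¹) * t⁻¹⁻¹ = x := by group
        rwa [h1] at this
    have h1 : g ∈ R.U ⊔ R.T := by
      rw [sup_comm]
      exact h
    rw [← SetLike.mem_coe, Subgroup.coe_mul_of_right_le_normalizer_left _ _ hn] at h1
    obtain ⟨u, hu, t, ht, rfl⟩ := h1
    exact ⟨u, hu, t, ht, rfl⟩
  · rintro ⟨u, hu, t, ht, rfl⟩
    exact R.B.mul_mem (R.U_le_B hu) (R.T_le_B ht)

theorem B_U {g x : G} (hg : g ∈ R.B) (hx : x ∈ R.U) : g * x * g⁻¹ ∈ R.U := by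
  obtain ⟨u, hu, t, ht, rfl⟩ := R.mem_B.mp hg
  have h1 := R.T_gp R.pos_sub ht hx
  have h2 : u * t * x * (u * t)⁻¹ = u * (t * x * t⁻¹) * u⁻¹ := by group
  rw [h2]
  exact R.U.mul_mem (R.U.mul_mem hu h1) (R.U.inv_mem hu)

end RGD

end Pool.Agent.PP.X1
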