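import Mathlib

/-!
# Root group data of characteristic `ℓ`

The finite groups of Lie type of characteristic `ℓ`, of any rank, have such a datum.
-/

open scoped BigOperators

noncomputable section

namespace Pool.Agent.PP.X1

/-- The reflection in the hyperplane orthogonal to `a`. -/
def rf {m : ℕ} (a v : EuclideanSpace ℝ (Fin m)) : EuclideanSpace ℝ (Fin m) :=
  v - (2 * inner ℝ a v / inner ℝ a a) • a

/-- `v` is a linear combination of the vectors `a i` with nonnegative coefficients. -/
def Nn {m r : ℕ} (a : Fin r → EuclideanSpace ℝ (Fin m)) (v : EuclideanSpace ℝ (Fin m)) : Prop :=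
  ∃ k : Fin r → ℝ, (∀ i, 0 ≤ k i) ∧ v = ∑ i, k i • a i

/-- A root group datum of characteristic `ℓ` of the group `G`: a finite set `Φ` of roots with simple
roots `a i` in a Euclidean space, root groups `X b` (`b ∈ Φ`) which are `ℓ`-groups, a group `T` of
order prime to `ℓ` normalising them, and elements `n i` which induce on the root groups the
reflections in the simple roots. -/
structure RGD (ℓ : ℕ) (G : Type) [Group G] where
  /-- the dimension of the Euclidean space -/
  m : ℕ
  /-- the number of simple roots -/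
  r : ℕ
  /-- the simple roots -/
  a : Fin r → EuclideanSpace ℝ (Fin m)
  /-- the roots -/
  Φ : Set (EuclideanSpace ℝ (Fin m))
  /-- the root groups -/
  X : EuclideanSpace ℝ (Fin m) → Subgroup G
  /-- the torus -/
  T : Subgroup G
  /-- representatives of the simple reflections -/
  n : Fin r → G
  /-- there are finitely many roots -/
  fin : Φ.Finite
  /-- the simple roots are linearly independent -/
  base : LinearIndependent ℝ a
  /-- the simple roots are roots -/
  mem : ∀ i, a i ∈ Φ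
  /-- the roots are nonzero -/
  ne0 : ∀ b ∈ Φ, b ≠ 0
  /-- every root or its negative is a nonnegative combination of simple roots -/
  sgn : ∀ b ∈ Φ, Nn a b ∨ Nn a (-b)
  /-- the roots are permuted by the simple reflections -/
  refl : ∀ i, ∀ b ∈ Φ, rf (a i) b ∈ Φ
  /-- a simple root is the shortest root on its ray -/
  short : ∀ i (c : ℝ), 0 < c → c • a i ∈ Φ → 1 ≤ c
  /-- the root groups are `ℓ`-groups -/
  pgrp : ∀ b ∈ Φ, IsPGroup ℓ (X b)
  /-- the root groups of the simple roots are not trivial -/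
  nt : ∀ i, X (a i) ≠ ⊥
  /-- the root groups of a ray are nested -/
  nest : ∀ b ∈ Φ, ∀ c : ℝ, 1 ≤ c → c • b ∈ Φ → X (c • b) ≤ X b
  /-- the order of the torus is prime to `ℓ` -/
  cop : ¬ ℓ ∣ Nat.card T
  /-- the torus normalises the root groups -/
  tX : ∀ t ∈ T, ∀ b ∈ Φ, ∀ x ∈ X b, t * x * t⁻¹ ∈ X b
  /-- `n i` induces the reflection in the simple root `a i` on the root groups -/
  nX : ∀ i, ∀ b ∈ Φ, ∀ x ∈ X b, n i * x * (n i)⁻¹ ∈ X (rf (a i) b)
  /-- `n i` normalises the torus -/
  nT : ∀ i, ∀ t ∈ T, n i * t * (n i)⁻¹ ∈ T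
  /-- the square of `n i` is in the torus -/
  nn : ∀ i, n i * n i ∈ T
  /-- `n i` is in the group generated by the root groups of `a i` and its negative -/
  nmem : ∀ i, n i ∈ X (a i) ⊔ X (-a i)
  /-- the commutator relations -/
  comm : ∀ b ∈ Φ, ∀ c ∈ Φ, (∀ s : ℝ, 0 < s → c ≠ -(s • b)) → ∀ x ∈ X b, ∀ y ∈ X c,
    x * y * x⁻¹ * y⁻¹ ∈ ⨆ d ∈ {d ∈ Φ | ∃ p q : ℝ, 1 ≤ p ∧ 1 ≤ q ∧ d = p • b + q • c}, X d
  /-- the groups of rank one -/
  cell : ∀ i, ∀ x ∈ X (a i), x ≠ 1 →
    ∃ y ∈ X (a i), ∃ z ∈ X (a i), ∃ t ∈ T, n i * x * (n i)⁻¹ = y * (n i * t) * z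
  /-- the group generated by the positive root groups meets the group generated by the torus and the
  negative root groups trivially -/
  opp : (⨆ b ∈ {b ∈ Φ | Nn a b}, X b) ⊓ (T ⊔ ⨆ b ∈ {b ∈ Φ | Nn a (-b)}, X b) = ⊥
  /-- `G` is generated by the torus and the root groups -/
  gen : T ⊔ ⨆ b ∈ Φ, X b = ⊤

/-- `S` has a root group datum of characteristic `ℓ`. -/
def LieType (ℓ : ℕ) (S : Type) [Group S] : Prop := Nonempty (RGD ℓ S)

namespace RGD

variable {ℓ : ℕ} {G : Type} [Group G] (R : RGD ℓ G)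

/-- the Euclidean space -/
abbrev E : Type := EuclideanSpace ℝ (Fin R.m)

/-- the simple reflection -/
def s (i : Fin R.r) (v : R.E) : R.E := rf (R.a i) v

/-- the positive roots -/
def pos : Set R.E := {b | b ∈ R.Φ ∧ Nn R.a b}

/-- the negative roots -/
def neg : Set R.E := {b | b ∈ R.Φ ∧ Nn R.a (-b)}

/-- the roots in the span of the simple roots in `J` -/
def lev (J : Finset (Fin R.r)) : Set R.E :=
  {b | b ∈ R.Φ ∧ b ∈ Submodule.span ℝ (R.a '' (J : Set (Fin R.r)))}

/-- the positive multiples of the simple root `a i` -/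
def ray (i : Fin R.r) : Set R.E := {b | b ∈ R.Φ ∧ ∃ c : ℝ, 0 < c ∧ b = c • R.a i}

/-- the group generated by the root groups of the set `A` of roots -/
def gp (A : Set R.E) : Subgroup G := ⨆ b ∈ A, R.X b

/-- the Sylow subgroup `U` -/
def U : Subgroup G := R.gp R.pos

/-- the opposite Sylow subgroup -/
def V : Subgroup G := R.gp R.neg

/-- the Borel subgroup -/
def B : Subgroup G := R.T ⊔ R.U

/-- the unipotent radical of the parabolic subgroup of type `J` -/
def UJ (J : Finset (Fin R.r)) : Subgroup G := R.gp (R.pos \ R.lev J)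

/-- the parabolic subgroup of type `J` -/
def PJ (J : Finset (Fin R.r)) : Subgroup G := R.T ⊔ R.gp (R.pos ∪ R.lev J)

/-- the action of a word on the Euclidean space -/
def sw (w : List (Fin R.r)) (v : R.E) : R.E := w.foldr (fun i u => R.s i u) v

/-- the element of a word -/
def nw (w : List (Fin R.r)) : G := (w.map R.n).prod

/-- the torus of the group of rank one of the simple root `a i` -/
def Ti (i : Fin R.r) : Subgroup G := R.T ⊓ (R.X (R.a i) ⊔ R.X (-R.a i))

/-- the subgroup generated by the `Ti i`, `i ∈ K` -/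
def TK (K : Finset (Fin R.r)) : Subgroup G := ⨆ i ∈ K, R.Ti i

/-- closed sets of roots -/
structure Clo (A : Set R.E) : Prop where
  sub : A ⊆ R.Φ
  up : ∀ b ∈ A, ∀ c : ℝ, 1 ≤ c → c • b ∈ R.Φ → c • b ∈ A
  add : ∀ b ∈ A, ∀ c ∈ A, ∀ p q : ℝ, 1 ≤ p → 1 ≤ q → p • b + q • c ∈ R.Φ → p • b + q • c ∈ A

end RGD

end Pool.Agent.PP.X1
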