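import Pool.Agent.Helper36_X1.Stmts1
import Pool.Agent.Helper66_BN.Stmts

/-!
# Squad X1: definitions for representations and for the groups `D`

Text: `AWC_X1.md`, sections E ff.
-/

open scoped BigOperators

noncomputable section

namespace Pool.Agent.PP.X1

open Pool.Agent.Helper51_AWC Pool.Agent.Helper79_WRA Pool.Agent.PP

/-! ## Representations of the parabolic subgroups -/

section reps

variable {F G : Type} [Field F] [Group G]

/-- a representation of a subgroup as a function on the group, zero outside the subgroup -/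
def ro {P : Subgroup G} {k : ℕ} (ρ : P →* Matrix (Fin k) (Fin k) F) (g : G) :
    Matrix (Fin k) (Fin k) F :=
  open Classical in if h : g ∈ P then ρ ⟨g, h⟩ else 0

theorem ro_mem {P : Subgroup G} {k : ℕ} (ρ : P →* Matrix (Fin k) (Fin k) F) {g : G} (h : g ∈ P) :
    ro ρ g = ρ ⟨g, h⟩ := by
  rw [ro, dif_pos h]

theorem ro_coe {P : Subgroup G} {k : ℕ} (ρ : P →* Matrix (Fin k) (Fin k) F) (g : P) :
    ro ρ g = ρ g := by
  rw [ro_mem ρ g.2]

theorem ro_one {P : Subgroup G} {k : ℕ} (ρ : P →* Matrix (Fin k) (Fin k) F) : ro ρ 1 = 1 := by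
  rw [ro_mem ρ P.one_mem]
  exact map_one ρ

theorem ro_mul {P : Subgroup G} {k : ℕ} (ρ : P →* Matrix (Fin k) (Fin k) F) {g h : G}
    (hg : g ∈ P) (hh : h ∈ P) : ro ρ (g * h) = ro ρ g * ro ρ h := by
  rw [ro_mem ρ hg, ro_mem ρ hh, ro_mem ρ (P.mul_mem hg hh), ← map_mul]
  rfl

/-- the vectors fixed by `U` -/
def fx {P : Subgroup G} {k : ℕ} (U : Subgroup G) (ρ : P →* Matrix (Fin k) (Fin k) F) :
    Submodule F (Fin k → F) where
  carrier := {v | ∀ u ∈ U, (ro ρ u).mulVec v = v}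
  add_mem' := by
    intro v w hv hw u hu
    rw [Matrix.mulVec_add, hv u hu, hw u hu]
  zero_mem' := by
    intro u _
    rw [Matrix.mulVec_zero]
  smul_mem' := by
    intro c v hv u hu
    rw [Matrix.mulVec_smul, hv u hu]

theorem mem_fx {P : Subgroup G} {k : ℕ} {U : Subgroup G} {ρ : P →* Matrix (Fin k) (Fin k) F}
    {v : Fin k → F} : v ∈ fx U ρ ↔ ∀ u ∈ U, (ro ρ u).mulVec v = v := Iff.rfl

/-- `φ` is fixed by `α` (an automorphism of `G` which stabilises `P`) -/
def Fxd (P : Subgroup G) (φ : P → F) (α : MulAut G) : Prop :=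
  ∀ g g' : P, (g' : G) = α g → φ g' = φ g

/-- For a representation `ρ` of `P` with trace `φ` and matrices `X`, `Y` which implement the
automorphisms `α`, `β` one has `X Y = z ρ(c) Y X`. -/
def IsTCa (P : Subgroup G) (φ : P → F) (α β : MulAut G) (c : G) (z : F) : Prop :=
  ∃ (n : ℕ) (ρ : P →* Matrix (Fin n) (Fin n) F) (X Y : Matrix (Fin n) (Fin n) F),
    IsIrr ρ ∧ tr ρ = φ ∧ IsUnit X ∧ IsUnit Y ∧
      (∀ g ∈ P, X * ro ρ g = ro ρ (α g) * X) ∧ (∀ g ∈ P, Y * ro ρ g = ro ρ (β g) * Y) ∧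
      X * Y = z • (ro ρ c * Y * X)

/-- the scalar of `φ`, `α`, `β`, `c` -/
def tca (P : Subgroup G) (φ : P → F) (α β : MulAut G) (c : G) : F :=
  open Classical in if h : ∃ z, IsTCa P φ α β c z then h.choose else 0

/-- the scalars by which the subgroup `Z` acts are given by `ζ` -/
def Ovr (P Z : Subgroup G) (ζ : G → F) (φ : P → F) : Prop :=
  ∀ z ∈ Z, ∀ g g' : P, (g' : G) = z * g → φ g' = ζ z * φ g

variable {ℓ : ℕ}

/-- the root groups made negative by `w⁻¹` -/
def RGD.Uw (R : RGD ℓ G) (w : List (Fin R.r)) : Subgroup G :=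
  R.gp {b | b ∈ R.pos ∧ R.sw w.reverse b ∈ R.neg}

/-- the operator of the simple root `a i` -/
def Ai (R : RGD ℓ G) {P : Subgroup G} {k : ℕ} (ρ : P →* Matrix (Fin k) (Fin k) F)
    (i : Fin R.r) : Matrix (Fin k) (Fin k) F :=
  ∑ᶠ x : R.X (R.a i), ro ρ ((x : G) * R.n i)

/-- the operator of the word `w` -/
def Aw (R : RGD ℓ G) {P : Subgroup G} {k : ℕ} (ρ : P →* Matrix (Fin k) (Fin k) F)
    (w : List (Fin R.r)) : Matrix (Fin k) (Fin k) F :=
  ∑ᶠ x : R.Uw w, ro ρ ((x : G) * R.nw w)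

/-- an element `t` of the torus with `n i * x * (n i)⁻¹ ∈ X (n i) t X` -/
def RGD.th (R : RGD ℓ G) (i : Fin R.r) (x : G) : G :=
  open Classical in
  if h : ∃ t ∈ R.T, ∃ y ∈ R.X (R.a i), ∃ z ∈ R.X (R.a i),
    R.n i * x * (R.n i)⁻¹ = y * (R.n i * t) * z then h.choose else 1

/-- the operator `∑ t(x) n²`, `x ≠ 1` -/
def tauM (R : RGD ℓ G) {P : Subgroup G} {k : ℕ} (ρ : P →* Matrix (Fin k) (Fin k) F)
    (i : Fin R.r) : Matrix (Fin k) (Fin k) F :=
  open Classical in
  ∑ᶠ x : R.X (R.a i), if (x : G) = 1 then 0 else ro ρ (R.th i x * (R.n i * R.n i))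

/-- `L` is stable under the torus -/
def TS (R : RGD ℓ G) {P : Subgroup G} {k : ℕ} (ρ : P →* Matrix (Fin k) (Fin k) F)
    (L : Submodule F (Fin k → F)) : Prop :=
  ∀ t ∈ R.T, ∀ v ∈ L, (ro ρ t).mulVec v ∈ L

/-- `L` is stable under the operators of the simple roots in `J` -/
def AS (R : RGD ℓ G) (J : Finset (Fin R.r)) {P : Subgroup G} {k : ℕ}
    (ρ : P →* Matrix (Fin k) (Fin k) F) (L : Submodule F (Fin k → F)) : Prop :=
  ∀ i ∈ J, ∀ v ∈ L, (Ai R ρ i).mulVec v ∈ L

/-- The irreducible representation `ρ` of the parabolic subgroup of type `J` has the label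
`(σ, K)`: `σ` is the representation of `B` on the fixed points of `U`, and `K` is the set of the
`i` in `J` whose operator does not vanish on the fixed points. -/
def Lab (R : RGD ℓ G) (J : Finset (Fin R.r)) {k m : ℕ}
    (ρ : R.PJ J →* Matrix (Fin k) (Fin k) F) (σ : R.B →* Matrix (Fin m) (Fin m) F)
    (K : Finset (Fin R.r)) : Prop :=
  IsIrr ρ ∧ IsIrr σ ∧ K ⊆ J ∧
    ∃ (X : Matrix (Fin k) (Fin m) F) (Y : Matrix (Fin m) (Fin k) F), Y * X = 1 ∧
      (∀ b ∈ R.B, ro ρ b * X = X * ro σ b) ∧ (∀ v ∈ fx R.U ρ, ∃ c, v = X.mulVec c) ∧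
      ∀ i ∈ J, (i ∈ K ↔ Ai R ρ i * X ≠ 0)

/-- the sum of the elements of `U` acts as zero -/
def SZJ (R : RGD ℓ G) {P : Subgroup G} (φ : P → F) : Prop :=
  ∃ (k : ℕ) (ρ : P →* Matrix (Fin k) (Fin k) F), IsIrr ρ ∧ tr ρ = φ ∧
    ∑ᶠ u : R.U, ro ρ (u : G) = 0

/-- the simple roots `a i` such that `T i` acts trivially -/
def Ms (R : RGD ℓ G) (lam : R.B → F) : Finset (Fin R.r) :=
  open Classical in
  Finset.univ.filter fun i => ∀ t ∈ R.Ti i, ∀ b b' : R.B, (b' : G) = t * b → lam b' = lam b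

/-- `π` is the permutation of the simple roots induced by the automorphism `α` -/
def IsPi (R : RGD ℓ G) (α : MulAut G) (π : Equiv.Perm (Fin R.r)) : Prop :=
  ∀ (K : Finset (Fin R.r)) (g : G), (α g ∈ R.PJ (K.map π.toEmbedding) ↔ g ∈ R.PJ K) ∧
    (α g ∈ R.UJ (K.map π.toEmbedding) ↔ g ∈ R.UJ K)

/-- the permutation of the simple roots induced by `α` -/
def piA (R : RGD ℓ G) (α : MulAut G) : Equiv.Perm (Fin R.r) :=
  open Classical in if h : ∃ π, IsPi R α π then h.choose else 1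

end reps

/-- the sets `K` in the counting formula -/
def KS {r : ℕ} (J M : Finset (Fin r)) (π π' : Equiv.Perm (Fin r)) (q : Prop) :
    Finset (Finset (Fin r)) :=
  open Classical in
  Finset.univ.filter fun K => K ⊆ J ∧ K ⊆ M ∧ K.map π.toEmbedding = K ∧
    K.map π'.toEmbedding = K ∧ (q → K ≠ Finset.univ)

/-- the flags: chains of proper subsets -/
def Flag {r : ℕ} (f : Finset (Finset (Fin r))) : Prop :=
  (∀ J ∈ f, J ≠ Finset.univ) ∧ IsChain (· ⊆ ·) (f : Set (Finset (Fin r)))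

/-! ## The groups `D` -/

/-- `M` is a normal subgroup of `D` with a root group datum, `M / Z(D)` is simple. -/
structure RgD (ℓ : ℕ) {D : Type} [Group D] (M : Subgroup D) (R : RGD ℓ M) : Prop where
  normal : M.Normal
  index : ¬ ℓ ∣ M.index
  zM : Subgroup.center D ≤ M
  zT : ∀ z : M, (z : D) ∈ Subgroup.center D → z ∈ R.T
  ne : R.U ≠ ⊥
  cent : Subgroup.centralizer (M : Set D) ≤ Subgroup.center D
  simp : ∀ K : Subgroup M, K.Normal → (∀ x ∈ K, (x : D) ∈ Subgroup.center D) ∨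
    ∀ x : M, ∃ y ∈ K, ∃ z ∈ Subgroup.center D, (x : D) = y * z
  nonab : ∃ x y : M, x * y ≠ y * x

section groups

variable {ℓ : ℕ} {D : Type} [Group D] {M : Subgroup D}

/-- the image in `D` of a subgroup of `M` -/
def up (A : Subgroup M) : Subgroup D := A.map M.subtype

/-- the normaliser of `U` in `D` -/
def AD (R : RGD ℓ M) : Subgroup D := Subgroup.normalizer ((up R.U : Subgroup D) : Set D)

/-- the stabiliser of a flag -/
def Df (R : RGD ℓ M) (f : Finset (Finset (Fin R.r))) : Subgroup D :=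
  ⨅ J ∈ f, Subgroup.normalizer ((up (R.UJ J) : Subgroup D) : Set D)

/-- the commutator as an element of `M` -/
def cM (M : Subgroup D) (x y : D) : M :=
  open Classical in if h : x * y * x⁻¹ * y⁻¹ ∈ M then ⟨x * y * x⁻¹ * y⁻¹, h⟩ else 1

/-- the conjugates of the unipotent radicals of the proper parabolic subgroups -/
def Rad (R : RGD ℓ M) (Q : Subgroup D) : Prop :=
  ∃ g ∈ M, ∃ J : Finset (Fin R.r), J ≠ Finset.univ ∧ Q = conjS g (up (R.UJ J))

end groups

end Pool.Agent.PP.X1
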