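import Pool.Agent.Helper36_X1.Defs2

/-!
# Squad X1: statements on the representations of the parabolic subgroups

Text: `AWC_X1.md`, section E.
-/

open scoped BigOperators

noncomputable section

namespace Pool.Agent.PP.X1

open Pool.Agent.Helper51_AWC Pool.Agent.Helper79_WRA Pool.Agent.PP

/-- LN2: a word which makes negative exactly the roots of `J` outside the span of `K`; it carries
the simple roots of `K` to simple roots. -/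
def Ln2Stmt : Prop := ∀ (ℓ : ℕ) (G : Type) [Group G] (R : RGD ℓ G) (J K : Finset (Fin R.r)),
  K ⊆ J → ∃ w : List (Fin R.r), (∀ i ∈ w, i ∈ J) ∧
    (∀ b ∈ R.pos ∩ R.lev J, R.sw w b ∈ R.pos ↔ b ∈ R.lev K) ∧
    ∀ i ∈ K, ∃ j ∈ J, R.sw w (R.a i) = R.a j

/-- OPV: the opposite Sylow subgroup and the parabolic subgroups. -/
def OpvStmt : Prop := ∀ (ℓ : ℕ) (G : Type) [Group G] (R : RGD ℓ G),
  (∀ w : List (Fin R.r), ∀ v ∈ R.V, ∀ b ∈ R.B, R.nw w = v * b → ∀ x, R.sw w x = x) ∧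
  (∀ K : Finset (Fin R.r), R.gp (R.neg \ R.lev K) ⊓ R.PJ K = ⊥) ∧
  (∀ (i : Fin R.r), ∀ g ∈ R.V, g ∈ R.PJ {i} → g ∈ R.X (-R.a i)) ∧
  R.B ⊓ (R.T ⊔ R.V) = R.T ∧
  (∀ g, (∀ v ∈ R.V, g * v * g⁻¹ ∈ R.V) → g ∈ R.U → g = 1)

/-- EXT: the subgroup of the parabolic subgroup generated by `U` and the root groups. -/
def ExtStmt : Prop := ∀ (ℓ : ℕ) (G : Type) [Group G] (R : RGD ℓ G) (K : Finset (Fin R.r)),
  ∃ Q : Subgroup G, Q ≤ R.PJ K ∧ (∀ g ∈ R.PJ K, ∀ x ∈ Q, g * x * g⁻¹ ∈ Q) ∧ R.U ≤ Q ∧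
    (∀ b ∈ R.lev K, R.X b ≤ Q) ∧ R.T ⊔ Q = R.PJ K ∧ R.T ⊓ Q = R.TK K

/-- ACA: the calculus of the operators. -/
def AcaStmt : Prop := ∀ (ℓ : ℕ) [Fact ℓ.Prime] (F : Type) [Field F], GoodF ℓ F →
  ∀ (G : Type) [Group G] [Finite G] (R : RGD ℓ G) (J : Finset (Fin R.r)) (k : ℕ)
    (ρ : R.PJ J →* Matrix (Fin k) (Fin k) F),
  (∀ w : List (Fin R.r), (∀ j ∈ w, j ∈ J) → ∀ v ∈ fx R.U ρ,
    (Aw R ρ w).mulVec v ∈ fx R.U ρ ∧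
    ∀ i ∈ J, (R.sw w.reverse (R.a i) ∈ R.pos →
        (Aw R ρ (i :: w)).mulVec v = (Ai R ρ i).mulVec ((Aw R ρ w).mulVec v)) ∧
      (R.sw w.reverse (R.a i) ∈ R.neg → (Ai R ρ i).mulVec ((Aw R ρ (i :: w)).mulVec v) =
        (Aw R ρ w).mulVec ((ro ρ ((R.nw w)⁻¹ * (R.n i * R.n i) * R.nw w)).mulVec v))) ∧
  (∀ w : List (Fin R.r), (∀ j ∈ w, j ∈ J) → ∀ t ∈ R.T, ∀ v,
    (Aw R ρ w).mulVec ((ro ρ t).mulVec v) =
      (ro ρ (R.nw w * t * (R.nw w)⁻¹)).mulVec ((Aw R ρ w).mulVec v)) ∧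
  (∀ i ∈ J, ∀ v ∈ fx R.U ρ, (Ai R ρ i).mulVec v ∈ fx R.U ρ) ∧
  (∀ i ∈ J, ∀ t ∈ R.T, ∀ v, (Ai R ρ i).mulVec ((ro ρ t).mulVec v) =
    (ro ρ (R.n i * t * (R.n i)⁻¹)).mulVec ((Ai R ρ i).mulVec v)) ∧
  (∀ t ∈ R.T, ∀ v ∈ fx R.U ρ, (ro ρ t).mulVec v ∈ fx R.U ρ) ∧
  ∀ v, (Aw R ρ []).mulVec v = v

/-- ACB: the square of the operator of a simple root. -/
def AcbStmt : Prop := ∀ (ℓ : ℕ) [Fact ℓ.Prime] (F : Type) [Field F], GoodF ℓ F →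
  ∀ (G : Type) [Group G] [Finite G] (R : RGD ℓ G) (J : Finset (Fin R.r)) (k : ℕ)
    (ρ : R.PJ J →* Matrix (Fin k) (Fin k) F), ∀ i ∈ J,
  (∀ v ∈ fx R.U ρ, (Ai R ρ i).mulVec ((Ai R ρ i).mulVec v) =
    (Ai R ρ i).mulVec ((tauM R ρ i).mulVec v)) ∧
  (∀ x ∈ R.X (R.a i), x ≠ 1 → R.th i x ∈ R.Ti i ∧ ∃ y ∈ R.X (R.a i), ∃ z ∈ R.X (R.a i),
    y ≠ 1 ∧ R.n i * x * (R.n i)⁻¹ = y * (R.n i * R.th i x) * z) ∧
  ∀ L : Submodule F (Fin k → F), TS R ρ L → (∀ v ∈ L, (tauM R ρ i).mulVec v ∈ L) ∧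
    ((∀ t ∈ R.Ti i, ∀ v ∈ L, (ro ρ t).mulVec v = v) → ∀ v ∈ L, (tauM R ρ i).mulVec v = -v)

/-- TRI: where the operator of a simple root is injective it is `-1`, and the torus of the group of
rank one acts trivially. -/
def TriStmt : Prop := ∀ (ℓ : ℕ) [Fact ℓ.Prime] (F : Type) [Field F], GoodF ℓ F →
  ∀ (G : Type) [Group G] [Finite G] (R : RGD ℓ G) (J : Finset (Fin R.r)) (k : ℕ)
    (ρ : R.PJ J →* Matrix (Fin k) (Fin k) F), ∀ i ∈ J, ∀ L : Submodule F (Fin k → F),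
  L ≤ fx R.U ρ → TS R ρ L → (∀ v ∈ L, (Ai R ρ i).mulVec v ∈ L) →
  (∀ v ∈ L, (Ai R ρ i).mulVec v = 0 → v = 0) →
  (∀ t ∈ R.Ti i, ∀ v ∈ L, (ro ρ t).mulVec v = v) ∧ ∀ v ∈ L, (Ai R ρ i).mulVec v = -v

/-- IND: an induced representation, in terms of matrices. -/
def IndStmt : Prop := ∀ (ℓ : ℕ) [Fact ℓ.Prime] (F : Type) [Field F], GoodF ℓ F →
  ∀ (G : Type) [Group G] [Finite G] (R : RGD ℓ G) (J K : Finset (Fin R.r)), K ⊆ J → ∀ (m : ℕ)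
    (σ : R.T →* Matrix (Fin m) (Fin m) F), (∀ t ∈ R.TK K, ro σ t = 1) →
  ∃ (k : ℕ) (ρ : R.PJ J →* Matrix (Fin k) (Fin k) F) (E : Matrix (Fin k) (Fin m) F)
    (E' : Matrix (Fin m) (Fin k) F), (∀ u ∈ R.U, ro ρ u * E = E) ∧
    (∀ i ∈ K, ∀ x ∈ R.X (R.a i) ⊔ R.X (-R.a i), ro ρ x * E = E) ∧
    (∀ t ∈ R.T, ro ρ t * E = E * ro σ t) ∧ E' * E = 1 ∧
    ∀ g ∈ R.PJ J, g ∉ R.PJ K → E' * ro ρ g * E = 0

/-- TAU: on an irreducible representation of the torus on which `T i` does not act trivially the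
operator `∑ t(x) n²` vanishes. -/
def TauStmt : Prop := ∀ (ℓ : ℕ) [Fact ℓ.Prime] (F : Type) [Field F], GoodF ℓ F →
  ∀ (G : Type) [Group G] [Finite G] (R : RGD ℓ G) (J : Finset (Fin R.r)) (k : ℕ)
    (ρ : R.PJ J →* Matrix (Fin k) (Fin k) F), ∀ i ∈ J, ∀ L : Submodule F (Fin k → F),
  TS R ρ L → (∀ L' : Submodule F (Fin k → F), L' ≤ L → TS R ρ L' → L' = ⊥ ∨ L' = L) →
  (∀ t ∈ R.Ti i, ∀ v ∈ L, (ro ρ t).mulVec v = v) ∨ ∀ v ∈ L, (tauM R ρ i).mulVec v = 0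

/-- CYC: cyclicity over `U`. -/
def CycxStmt : Prop := ∀ (ℓ : ℕ) [Fact ℓ.Prime] (F : Type) [Field F], GoodF ℓ F →
  ∀ (G : Type) [Group G] [Finite G] (R : RGD ℓ G) (J : Finset (Fin R.r)) (k : ℕ)
    (ρ : R.PJ J →* Matrix (Fin k) (Fin k) F) (L : Submodule F (Fin k → F)),
  L ≤ fx R.U ρ → TS R ρ L → AS R J ρ L → ∀ w : List (Fin R.r), (∀ j ∈ w, j ∈ J) →
  (∀ b ∈ R.pos ∩ R.lev J, R.sw w b ∈ R.neg) → ∀ g ∈ R.PJ J, ∀ v ∈ L,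
    (ro ρ g).mulVec v ∈ Submodule.span F
      {x | ∃ u ∈ R.U, ∃ v' ∈ L, x = (ro ρ (u * R.nw w)).mulVec v'}

/-- MIN: every nonzero torus stable subspace of the fixed points leads to an irreducible torus
submodule of the fixed points which is stable under the operators. -/
def MinStmt : Prop := ∀ (ℓ : ℕ) [Fact ℓ.Prime] (F : Type) [Field F], GoodF ℓ F →
  ∀ (G : Type) [Group G] [Finite G] (R : RGD ℓ G) (J : Finset (Fin R.r)) (k : ℕ)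
    (ρ : R.PJ J →* Matrix (Fin k) (Fin k) F), fx R.U ρ ≠ ⊥ →
  ∃ L : Submodule F (Fin k → F), L ≠ ⊥ ∧ L ≤ fx R.U ρ ∧ TS R ρ L ∧ AS R J ρ L ∧
    ∀ L' : Submodule F (Fin k → F), L' ≤ L → TS R ρ L' → L' = ⊥ ∨ L' = L

/-- DUA: if the translates of the subspace `L` under `U` generate the whole space, for `L` the image
`n L` of every nonzero subspace of the fixed points stable under the torus and the operators, then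
there is only one such subspace. -/
def VuiStmt : Prop := ∀ (ℓ : ℕ) [Fact ℓ.Prime] (F : Type) [Field F], GoodF ℓ F →
  ∀ (G : Type) [Group G] [Finite G] (R : RGD ℓ G) (J : Finset (Fin R.r)) (k : ℕ)
    (ρ : R.PJ J →* Matrix (Fin k) (Fin k) F), IsIrr ρ →
  fx R.U ρ ≠ ⊥ ∧ (∀ L : Submodule F (Fin k → F), L ≠ ⊥ → L ≤ fx R.U ρ → TS R ρ L → AS R J ρ L →
    L = fx R.U ρ) ∧
  (∀ L : Submodule F (Fin k → F), L ≤ fx R.U ρ → TS R ρ L → L = ⊥ ∨ L = fx R.U ρ) ∧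
  (∀ i ∈ J, (∀ v ∈ fx R.U ρ, (Ai R ρ i).mulVec v = 0) ∨
    ((∀ t ∈ R.Ti i, ∀ v ∈ fx R.U ρ, (ro ρ t).mulVec v = v) ∧
      ∀ v ∈ fx R.U ρ, (Ai R ρ i).mulVec v = -v)) ∧
  -- the dimension of the coinvariants
  ∀ φ : (Fin k → F) →ₗ[F] F, (∀ u ∈ R.U, ∀ v, φ ((ro ρ u).mulVec v) = φ v) →
    ∀ w : List (Fin R.r), (∀ j ∈ w, j ∈ J) → (∀ b ∈ R.pos ∩ R.lev J, R.sw w b ∈ R.neg) →
    (∀ v ∈ fx R.U ρ, φ ((ro ρ (R.nw w)).mulVec v) = 0) → φ = 0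

/-- LB1: every irreducible representation has a label, and the label satisfies the condition on the
torus. -/
def Lb1Stmt : Prop := ∀ (ℓ : ℕ) [Fact ℓ.Prime] (F : Type) [Field F], GoodF ℓ F →
  ∀ (G : Type) [Group G] [Finite G] (R : RGD ℓ G) (J : Finset (Fin R.r)),
  (∀ (k : ℕ) (ρ : R.PJ J →* Matrix (Fin k) (Fin k) F), IsIrr ρ →
    ∃ (m : ℕ) (σ : R.B →* Matrix (Fin m) (Fin m) F) (K : Finset (Fin R.r)), Lab R J ρ σ K) ∧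
  ∀ (k m : ℕ) (ρ : R.PJ J →* Matrix (Fin k) (Fin k) F) (σ : R.B →* Matrix (Fin m) (Fin m) F)
    (K : Finset (Fin R.r)), Lab R J ρ σ K → (∀ i ∈ K, ∀ t ∈ R.Ti i, ro σ t = 1) ∧
      ∀ X : Matrix (Fin k) (Fin m) F, (∀ b ∈ R.B, ro ρ b * X = X * ro σ b) → ∀ i ∈ J,
        Ai R ρ i * X = if i ∈ K then -X else 0

/-- LB3: the label determines the representation. -/
def Lb3Stmt : Prop := ∀ (ℓ : ℕ) [Fact ℓ.Prime] (F : Type) [Field F], GoodF ℓ F →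
  ∀ (G : Type) [Group G] [Finite G] (R : RGD ℓ G) (J : Finset (Fin R.r)) (k k' m m' : ℕ)
    (ρ : R.PJ J →* Matrix (Fin k) (Fin k) F) (ρ' : R.PJ J →* Matrix (Fin k') (Fin k') F)
    (σ : R.B →* Matrix (Fin m) (Fin m) F) (σ' : R.B →* Matrix (Fin m') (Fin m') F)
    (K : Finset (Fin R.r)), Lab R J ρ σ K → Lab R J ρ' σ' K → tr σ = tr σ' → tr ρ = tr ρ'

/-- LB4: the label is determined by the representation. -/
def Lb4Stmt : Prop := ∀ (ℓ : ℕ) [Fact ℓ.Prime] (F : Type) [Field F], GoodF ℓ F →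
  ∀ (G : Type) [Group G] [Finite G] (R : RGD ℓ G) (J : Finset (Fin R.r)) (k k' m m' : ℕ)
    (ρ : R.PJ J →* Matrix (Fin k) (Fin k) F) (ρ' : R.PJ J →* Matrix (Fin k') (Fin k') F)
    (σ : R.B →* Matrix (Fin m) (Fin m) F) (σ' : R.B →* Matrix (Fin m') (Fin m') F)
    (K K' : Finset (Fin R.r)), Lab R J ρ σ K → Lab R J ρ' σ' K' → tr ρ = tr ρ' →
    tr σ = tr σ' ∧ K = K'

/-- LB5: every label occurs. -/
def Lb5Stmt : Prop := ∀ (ℓ : ℕ) [Fact ℓ.Prime] (F : Type) [Field F], GoodF ℓ F →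
  ∀ (G : Type) [Group G] [Finite G] (R : RGD ℓ G) (J K : Finset (Fin R.r)), K ⊆ J → ∀ (m : ℕ)
    (σ : R.B →* Matrix (Fin m) (Fin m) F), IsIrr σ → (∀ i ∈ K, ∀ t ∈ R.Ti i, ro σ t = 1) →
  ∃ (k : ℕ) (ρ : R.PJ J →* Matrix (Fin k) (Fin k) F), Lab R J ρ σ K

/-- SUB: a representation with a subspace of the fixed points which is irreducible for the torus
and stable under the operators has an irreducible quotient with the corresponding label. -/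
def SubStmt : Prop := ∀ (ℓ : ℕ) [Fact ℓ.Prime] (F : Type) [Field F], GoodF ℓ F →
  ∀ (G : Type) [Group G] [Finite G] (R : RGD ℓ G) (J K : Finset (Fin R.r)), K ⊆ J →
  ∀ (k m : ℕ) (ρ : R.PJ J →* Matrix (Fin k) (Fin k) F) (σ : R.B →* Matrix (Fin m) (Fin m) F),
  IsIrr σ → ∀ X : Matrix (Fin k) (Fin m) F, X ≠ 0 → (∀ b ∈ R.B, ro ρ b * X = X * ro σ b) →
  (∀ i ∈ J, Ai R ρ i * X = if i ∈ K then -X else 0) →
  ∃ (l : ℕ) (ρ' : R.PJ J →* Matrix (Fin l) (Fin l) F), Lab R J ρ' σ K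

/-- LB6: the sum of the elements of `U` for `J` the set of all simple roots. -/
def Lb6Stmt : Prop := ∀ (ℓ : ℕ) [Fact ℓ.Prime] (F : Type) [Field F], GoodF ℓ F →
  ∀ (G : Type) [Group G] [Finite G] (R : RGD ℓ G) (k : ℕ)
    (ρ : R.PJ Finset.univ →* Matrix (Fin k) (Fin k) F), IsIrr ρ →
  ((∑ᶠ u : R.U, ro ρ (u : G) = 0) ∨ ∃ φ : Matrix (Fin k) (Fin k) F,
    ∑ᶠ u : R.U, ro ρ (u : G) * φ * ro ρ (u : G)⁻¹ = 1) ∧
  ∀ (m : ℕ) (σ : R.B →* Matrix (Fin m) (Fin m) F) (K : Finset (Fin R.r)),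
    Lab R Finset.univ ρ σ K → ((∑ᶠ u : R.U, ro ρ (u : G) = 0) ↔ K ≠ Finset.univ)

/-- FRX: the same for representations of the whole group. -/
def FrxStmt : Prop := ∀ (ℓ : ℕ) [Fact ℓ.Prime] (F : Type) [Field F], GoodF ℓ F →
  ∀ (G : Type) [Group G] [Finite G] (R : RGD ℓ G) (k : ℕ) (ρ : G →* Matrix (Fin k) (Fin k) F),
  IsIrr ρ → ¬ SZ R.U ρ → ∃ φ : Matrix (Fin k) (Fin k) F, ∑ᶠ u : R.U, ρ u * φ * ρ (u⁻¹ : G) = 1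

/-- PRM: an automorphism which stabilises `U` permutes the simple roots. -/
def PrmxStmt : Prop := ∀ (ℓ : ℕ) [Fact ℓ.Prime] (G : Type) [Group G] [Finite G] (R : RGD ℓ G)
  (α : MulAut G), (∀ u, α u ∈ R.U ↔ u ∈ R.U) → IsPi R α (piA R α) ∧
  (∀ b, α b ∈ R.B ↔ b ∈ R.B) ∧ ∀ π, IsPi R α π → π = piA R α

/-- LB7: the labels and the automorphisms. -/
def Lb7Stmt : Prop := ∀ (ℓ : ℕ) [Fact ℓ.Prime] (F : Type) [Field F], GoodF ℓ F →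
  ∀ (G : Type) [Group G] [Finite G] (R : RGD ℓ G) (J : Finset (Fin R.r)) (α : MulAut G),
  (∀ u, α u ∈ R.U ↔ u ∈ R.U) → J.map (piA R α).toEmbedding = J → ∀ (k m : ℕ)
    (ρ ρ' : R.PJ J →* Matrix (Fin k) (Fin k) F) (σ σ' : R.B →* Matrix (Fin m) (Fin m) F)
    (K : Finset (Fin R.r)), Lab R J ρ σ K → (∀ g g' : R.PJ J, (g' : G) = α g → ρ' g = ρ g') →
    (∀ g g' : R.B, (g' : G) = α g → σ' g = σ g') →
    Lab R J ρ' σ' (K.map (piA R α).symm.toEmbedding)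

/-- TCU: existence and uniqueness of the scalar. -/
def TcuStmt : Prop := ∀ (ℓ : ℕ) (F : Type) [Field F], GoodF ℓ F →
  ∀ (G : Type) [Group G] [Finite G] (P : Subgroup G) (φ : P → F), φ ∈ IBr F P →
  ∀ (α β : MulAut G) (c : G), c ∈ P → (∀ g, α g ∈ P ↔ g ∈ P) → (∀ g, β g ∈ P ↔ g ∈ P) →
  (∀ g, α (β (α⁻¹ (β⁻¹ g))) = c * g * c⁻¹) → Fxd P φ α → Fxd P φ β →
  tca P φ α β c ≠ 0 ∧ IsTCa P φ α β c (tca P φ α β c) ∧
    ∀ z, IsTCa P φ α β c z → z = tca P φ α β c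

/-- TCE: the scalars of `ρ` and of its label agree. -/
def TceStmt : Prop := ∀ (ℓ : ℕ) [Fact ℓ.Prime] (F : Type) [Field F], GoodF ℓ F →
  ∀ (G : Type) [Group G] [Finite G] (R : RGD ℓ G) (J : Finset (Fin R.r)) (α β : MulAut G) (c : G),
  (∀ u, α u ∈ R.U ↔ u ∈ R.U) → (∀ u, β u ∈ R.U ↔ u ∈ R.U) → c ∈ R.B →
  (∀ g, α g ∈ R.PJ J ↔ g ∈ R.PJ J) → (∀ g, β g ∈ R.PJ J ↔ g ∈ R.PJ J) →
  (∀ g, α (β (α⁻¹ (β⁻¹ g))) = c * g * c⁻¹) → ∀ (k m : ℕ)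
    (ρ : R.PJ J →* Matrix (Fin k) (Fin k) F) (σ : R.B →* Matrix (Fin m) (Fin m) F)
    (K : Finset (Fin R.r)), Lab R J ρ σ K → Fxd (R.PJ J) (tr ρ) α → Fxd (R.PJ J) (tr ρ) β →
    tca (R.PJ J) (tr ρ) α β c = tca R.B (tr σ) α β c

open Classical in
/-- CSF: the sum of the scalars over the irreducible characters of a parabolic subgroup. -/
def CsfStmt : Prop := ∀ (ℓ : ℕ) [Fact ℓ.Prime] (F : Type) [Field F], GoodF ℓ F →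
  ∀ (G : Type) [Group G] [Finite G] (R : RGD ℓ G) (J : Finset (Fin R.r)) (q : Prop),
  (q → J = Finset.univ) → ∀ (Z : Subgroup G), Z ≤ R.T → Z ≤ Subgroup.center G →
  ∀ (ζ : G → F) (α β : MulAut G) (c : G), (∀ z ∈ Z, ζ z ≠ 0) →
  (∀ u, α u ∈ R.U ↔ u ∈ R.U) → (∀ u, β u ∈ R.U ↔ u ∈ R.U) → c ∈ R.B →
  J.map (piA R α).toEmbedding = J → J.map (piA R β).toEmbedding = J →
  (∀ g, α (β (α⁻¹ (β⁻¹ g))) = c * g * c⁻¹) → ∀ τ : F → ℂ,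
  ∑ᶠ φ ∈ {φ : R.PJ J → F | φ ∈ IBr F (R.PJ J) ∧ Ovr (R.PJ J) Z ζ φ ∧ Fxd (R.PJ J) φ α ∧
      Fxd (R.PJ J) φ β ∧ (q → SZJ R φ)}, τ (tca (R.PJ J) φ α β c) =
    ∑ᶠ lam ∈ {lam : R.B → F | lam ∈ IBr F R.B ∧ Ovr R.B Z ζ lam ∧ Fxd R.B lam α ∧
      Fxd R.B lam β}, ((KS J (Ms R lam) (piA R α) (piA R β) q).card : ℂ) *
        τ (tca R.B lam α β c)

end Pool.Agent.PP.X1
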